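import Mathlib

/-! Formal affine chains: boundary, cone, barycentric subdivision and prism recursions. -/

open Set Finsupp

namespace Pool.Agent.Lib.Helper83

section supp
variable {R : Type} [CommRing R] {α M : Type} [AddCommGroup M] [Module R M]

lemma supp_mem {s : Set α} {N : Submodule R M} (T : (α →₀ R) →ₗ[R] M)
    (h : ∀ a ∈ s, T (single a 1) ∈ N) {c : α →₀ R} (hc : c ∈ supported R R s) : T c ∈ N := by
  rw [supported_eq_span_single] at hc
  have : Submodule.span R ((fun i => single i (1 : R)) '' s) ≤ N.comap T := by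
    rw [Submodule.span_le]
    rintro _ ⟨a, ha, rfl⟩
    exact h a ha
  exact this hc

lemma supp_eq {s : Set α} (T T' : (α →₀ R) →ₗ[R] M)
    (h : ∀ a ∈ s, T (single a 1) = T' (single a 1)) {c : α →₀ R} (hc : c ∈ supported R R s) :
    T c = T' c := by
  have := supp_mem (N := ⊥) (T - T') (fun a ha => by simp [h a ha]) hc
  simpa [sub_eq_zero] using this

lemma all_eq (T T' : (α →₀ R) →ₗ[R] M)
    (h : ∀ a, T (single a 1) = T' (single a 1)) (c : α →₀ R) : T c = T' c :=
  supp_eq (s := univ) T T' (fun a _ => h a) (by simp)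

end supp

/-- Formal simplices: finite lists of vertices. -/
abbrev Ax (E : Type) := Σ k : ℕ, Fin k → E

/-- Formal chains. -/
abbrev LC (R E : Type) [CommRing R] := Ax E →₀ R

variable {R : Type} [CommRing R] {E F E' F' : Type}

/-- A formal simplex as a chain. -/
noncomputable def ax (R : Type) [CommRing R] {k : ℕ} (v : Fin k → E) : LC R E := single ⟨k, v⟩ 1

noncomputable def abd0 (R : Type) [CommRing R] : Ax E → LC R E
  | ⟨0, _⟩ => 0
  | ⟨k + 1, v⟩ => ∑ i : Fin (k + 1), (-1 : R) ^ (i : ℕ) • ax R (v ∘ i.succAbove)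

/-- Boundary of formal chains. -/
noncomputable def abd : LC R E →ₗ[R] LC R E := linearCombination R (abd0 R)

/-- Cone with a given apex. -/
noncomputable def cone (x : E) : LC R E →ₗ[R] LC R E :=
  lmapDomain R R fun a => ⟨a.1 + 1, Fin.cons x a.2⟩

/-- Image of a formal chain. -/
noncomputable def amap (φ : E → F) : LC R E →ₗ[R] LC R F :=
  lmapDomain R R fun a => ⟨a.1, φ ∘ a.2⟩

lemma ax_eq (T T' : LC R E →ₗ[R] LC R F) (h : ∀ k (v : Fin k → E), T (ax R v) = T' (ax R v))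
    (c : LC R E) : T c = T' c := all_eq T T' (fun a => h a.1 a.2) c

@[simp] lemma abd_zero (v : Fin 0 → E) : abd (ax R v) = 0 := by simp [abd, ax, abd0]

lemma abd_succ {k : ℕ} (v : Fin (k + 1) → E) :
    abd (ax R v) = ∑ i : Fin (k + 1), (-1 : R) ^ (i : ℕ) • ax R (v ∘ i.succAbove) := by
  simp [abd, ax, abd0]

@[simp] lemma cone_ax (x : E) {k : ℕ} (v : Fin k → E) :
    cone x (ax R v) = ax R (Fin.cons x v : Fin (k + 1) → E) := by simp [cone, ax]

@[simp] lemma amap_ax (φ : E → F) {k : ℕ} (v : Fin k → E) : amap φ (ax R v) = ax R (φ ∘ v) := by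
  simp [amap, ax]

lemma abd_cone (x : E) (c : LC R E) : abd (cone x c) = c - cone x (abd c) := by
  refine ax_eq (abd ∘ₗ cone x) (LinearMap.id - cone x ∘ₗ abd) (fun k v => ?_) c
  simp only [LinearMap.comp_apply, LinearMap.sub_apply, LinearMap.id_apply, cone_ax]
  rw [abd_succ, Fin.sum_univ_succ]
  have h0 : (Fin.cons x v : Fin (k + 1) → E) ∘ Fin.succAbove 0 = v := by ext i; simp
  rw [h0]
  cases k with
  | zero => simp
  | succ k =>
    rw [abd_succ, map_sum, sub_eq_add_neg, ← Finset.sum_neg_distrib]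
    simp only [Fin.val_zero, pow_zero, one_smul, Fin.val_succ, map_smul, cone_ax]
    congr 1
    refine Finset.sum_congr rfl fun i _ => ?_
    have : (Fin.cons x v : Fin (k + 2) → E) ∘ i.succ.succAbove = Fin.cons x (v ∘ i.succAbove) := by
      ext j; refine Fin.cases ?_ (fun j => ?_) j <;> simp
    rw [this, pow_succ]; simp

lemma abd_abd (c : LC R E) : abd (abd c) = 0 := by
  refine ax_eq (abd ∘ₗ abd) 0 (fun k => ?_) c
  induction k with
  | zero => intro v; simp
  | succ k ih =>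
    intro v
    have h := ih (Fin.tail v)
    simp only [LinearMap.comp_apply, LinearMap.zero_apply] at h ⊢
    rw [← Fin.cons_self_tail v, ← cone_ax, abd_cone, map_sub, abd_cone, h]; simp

lemma abd_amap (φ : E → F) (c : LC R E) : abd (amap φ c) = amap φ (abd c) := by
  refine ax_eq (abd ∘ₗ amap φ) (amap φ ∘ₗ abd) (fun k v => ?_) c
  cases k with
  | zero => simp
  | succ k => simp [abd_succ, Function.comp_assoc]

lemma amap_cone (φ : E → F) (x : E) (c : LC R E) : amap φ (cone x c) = cone (φ x) (amap φ c) := by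
  refine ax_eq (amap φ ∘ₗ cone x) (cone (φ x) ∘ₗ amap φ) (fun k v => ?_) c
  simp only [LinearMap.comp_apply, cone_ax, amap_ax]
  congr 1; ext j; refine Fin.cases ?_ (fun j => ?_) j <;> simp

lemma amap_amap (φ : E → F) (ψ : F → F') (c : LC R E) : amap ψ (amap φ c) = amap (ψ ∘ φ) c :=
  ax_eq (amap ψ ∘ₗ amap φ) _ (fun k v => by simp [Function.comp_assoc]) c

/-- Formal chains with `k` vertices, all in `K`. -/
noncomputable def lsub (R : Type) [CommRing R] (K : Set E) (k : ℕ) : Submodule R (LC R E) :=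
  supported R R {a | a.1 = k ∧ ∀ i, a.2 i ∈ K}

lemma ax_mem {K : Set E} {k : ℕ} {v : Fin k → E} (h : ∀ i, v i ∈ K) : ax R v ∈ lsub R K k :=
  single_mem_supported R 1 ⟨rfl, h⟩

lemma lsub_mem {M : Type} [AddCommGroup M] [Module R M] {K : Set E} {k : ℕ} {N : Submodule R M}
    (T : LC R E →ₗ[R] M) (h : ∀ v : Fin k → E, (∀ i, v i ∈ K) → T (ax R v) ∈ N) {c : LC R E}
    (hc : c ∈ lsub R K k) : T c ∈ N := by
  refine supp_mem T ?_ hc
  rintro ⟨_, v⟩ ⟨rfl, hv⟩
  exact h v hv

lemma lsub_eq {M : Type} [AddCommGroup M] [Module R M] {K : Set E} {k : ℕ}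
    (T T' : LC R E →ₗ[R] M) (h : ∀ v : Fin k → E, (∀ i, v i ∈ K) → T (ax R v) = T' (ax R v))
    {c : LC R E} (hc : c ∈ lsub R K k) : T c = T' c := by
  refine supp_eq T T' ?_ hc
  rintro ⟨_, v⟩ ⟨rfl, hv⟩
  exact h v hv

lemma lsub_mono {K K' : Set E} (h : K ⊆ K') {k : ℕ} {c : LC R E} (hc : c ∈ lsub R K k) :
    c ∈ lsub R K' k := lsub_mem LinearMap.id (fun _ hv => ax_mem fun i => h (hv i)) hc

lemma abd_mem {K : Set E} {k : ℕ} {c : LC R E} (hc : c ∈ lsub R K (k + 1)) :
    abd c ∈ lsub R K k :=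
  lsub_mem abd (fun v hv => by
    rw [abd_succ]
    exact Submodule.sum_mem _ fun i _ => Submodule.smul_mem _ _ (ax_mem fun j => hv _)) hc

lemma cone_mem {K : Set E} {k : ℕ} {x : E} (hx : x ∈ K) {c : LC R E} (hc : c ∈ lsub R K k) :
    cone x c ∈ lsub R K (k + 1) :=
  lsub_mem (cone x) (fun v hv => by
    rw [cone_ax]
    exact ax_mem fun j => Fin.cases hx hv j) hc

lemma amap_mem {K : Set E} {K' : Set F} {φ : E → F} (h : MapsTo φ K K') {k : ℕ} {c : LC R E}
    (hc : c ∈ lsub R K k) : amap φ c ∈ lsub R K' k :=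
  lsub_mem (amap φ) (fun v hv => by rw [amap_ax]; exact ax_mem fun j => h (hv j)) hc

/-- The recursion behind subdivision, its homotopy, and the prism operator. -/
noncomputable def rc0 (ε c₀ : R) (b : ∀ k, (Fin (k + 1) → E) → F) (A : LC R E →ₗ[R] LC R F) :
    ∀ k, (Fin k → E) → LC R F
  | 0, _ => c₀ • ax R Fin.elim0
  | k + 1, v => cone (b k v) (A (ax R v) +
      ε • ∑ i : Fin (k + 1), (-1 : R) ^ (i : ℕ) • rc0 ε c₀ b A k (v ∘ i.succAbove))

noncomputable def rc (ε c₀ : R) (b : ∀ k, (Fin (k + 1) → E) → F) (A : LC R E →ₗ[R] LC R F) :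
    LC R E →ₗ[R] LC R F := linearCombination R fun a => rc0 ε c₀ b A a.1 a.2

section rc
variable {ε c₀ : R} {b : ∀ k, (Fin (k + 1) → E) → F} {A : LC R E →ₗ[R] LC R F}

lemma rc_ax {k : ℕ} (v : Fin k → E) : rc ε c₀ b A (ax R v) = rc0 ε c₀ b A k v := by
  simp [rc, ax]

lemma rc_zero (v : Fin 0 → E) : rc ε c₀ b A (ax R v) = c₀ • ax R Fin.elim0 := by
  rw [rc_ax, rc0]

lemma rc_succ {k : ℕ} (v : Fin (k + 1) → E) :
    rc ε c₀ b A (ax R v) = cone (b k v) (A (ax R v) + ε • rc ε c₀ b A (abd (ax R v))) := by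
  rw [rc_ax, rc0, abd_succ, map_sum (rc ε c₀ b A)]
  simp only [map_smul, rc_ax]

lemma rc_nat {b' : ∀ k, (Fin (k + 1) → E') → F'} {A' : LC R E' →ₗ[R] LC R F'} (φ : E → E')
    (φ' : F → F') (hb : ∀ k v, φ' (b k v) = b' k (φ ∘ v))
    (hA : ∀ c, amap φ' (A c) = A' (amap φ c)) (c : LC R E) :
    amap φ' (rc ε c₀ b A c) = rc ε c₀ b' A' (amap φ c) := by
  refine ax_eq (amap φ' ∘ₗ rc ε c₀ b A) (rc ε c₀ b' A' ∘ₗ amap φ) (fun k => ?_) c
  induction k with
  | zero =>
    intro v
    simp only [LinearMap.comp_apply, amap_ax, rc_zero, map_smul]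
    congr 2; exact Subsingleton.elim _ _
  | succ k ih =>
    intro v
    simp only [LinearMap.comp_apply, amap_ax] at ih ⊢
    rw [rc_succ, rc_succ, amap_cone, hb, map_add, hA, amap_ax, map_smul, abd_succ, abd_succ]
    simp only [map_sum, map_smul, ih, Function.comp_assoc]

lemma rc_mem {K : Set E} {K' : Set F} {d : ℕ} (h₀ : d = 0 ∨ c₀ = 0)
    (hb : ∀ k v, (∀ i, v i ∈ K) → b k v ∈ K')
    (hA : ∀ k c, c ∈ lsub R K (k + 1) → A c ∈ lsub R K' (k + d)) {k : ℕ} {c : LC R E}
    (hc : c ∈ lsub R K k) : rc ε c₀ b A c ∈ lsub R K' (k + d) := by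
  induction k generalizing c with
  | zero =>
    refine lsub_mem _ (fun v _ => ?_) hc
    rw [rc_zero]
    rcases h₀ with rfl | rfl
    · exact Submodule.smul_mem _ _ (ax_mem fun i => i.elim0)
    · simp
  | succ k ih =>
    refine lsub_mem _ (fun v hv => ?_) hc
    rw [rc_succ, Nat.add_right_comm]
    exact cone_mem (hb k v hv) (add_mem (hA _ _ (ax_mem hv))
      (Submodule.smul_mem _ _ (ih (abd_mem (ax_mem hv)))))

/-- The homotopy identity for the recursion with sign `-1`. -/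
lemma rc_htpy (hA : ∀ c, abd (A c) = A (abd c)) (h0 : ∀ v : Fin 0 → E, A (ax R v) = 0)
    (c : LC R E) : abd (rc (-1) 0 b A c) + rc (-1) 0 b A (abd c) = A c := by
  refine ax_eq (abd ∘ₗ rc (-1) 0 b A + rc (-1) 0 b A ∘ₗ abd) A (fun k => ?_) c
  induction k with
  | zero => intro v; simp [rc_zero, h0]
  | succ k ih =>
    intro v
    have h : abd (rc (-1) 0 b A (abd (ax R v))) + rc (-1) 0 b A (abd (abd (ax R v))) =
        A (abd (ax R v)) := by
      exact lsub_eq (abd ∘ₗ rc (-1) 0 b A + rc (-1) 0 b A ∘ₗ abd) A (fun w _ => ih w)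
        (abd_mem (ax_mem fun _ => mem_univ _))
    rw [abd_abd, map_zero, add_zero] at h
    simp only [LinearMap.add_apply, LinearMap.comp_apply]
    rw [rc_succ, abd_cone, map_add abd, map_smul, h, hA]
    simp

lemma rc_chain (c : LC R E) : abd (rc 1 1 b 0 c) = rc 1 1 b 0 (abd c) := by
  refine ax_eq (abd ∘ₗ rc 1 1 b 0) (rc 1 1 b 0 ∘ₗ abd) (fun k => ?_) c
  induction k with
  | zero => intro v; simp [rc_zero]
  | succ k ih =>
    intro v
    have h : abd (rc (1 : R) 1 b 0 (abd (ax R v))) = rc 1 1 b 0 (abd (abd (ax R v))) := by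
      exact lsub_eq (abd ∘ₗ rc (1 : R) 1 b 0) (rc (1 : R) 1 b 0 ∘ₗ abd) (fun w _ => ih w)
        (abd_mem (ax_mem fun _ => mem_univ _))
    rw [abd_abd, map_zero] at h
    simp only [LinearMap.comp_apply]
    rw [rc_succ, abd_cone]
    simp [h]

end rc

section vec
variable [AddCommGroup E] [Module ℝ E] [AddCommGroup E'] [Module ℝ E']

/-- Barycentre. -/
noncomputable def bary (k : ℕ) (v : Fin (k + 1) → E) : E := ∑ i, ((k + 1 : ℝ)⁻¹) • v i

lemma bary_mem {K : Set E} (hK : Convex ℝ K) (k : ℕ) (v : Fin (k + 1) → E) (hv : ∀ i, v i ∈ K) :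
    bary k v ∈ K :=
  hK.sum_mem (fun _ _ => by positivity) (by simp; field_simp) fun i _ => hv i

/-- Barycentric subdivision. -/
noncomputable def sd : LC R E →ₗ[R] LC R E := rc 1 1 bary 0

/-- Homotopy between the identity and the subdivision. -/
noncomputable def sdh : LC R E →ₗ[R] LC R E := rc (-1) 0 (fun _ v => v 0) (LinearMap.id - sd)

/-- The prism operator. -/
noncomputable def pri : LC R E →ₗ[R] LC R (E × ℝ) :=
  rc (-1) 0 (fun _ v => (v 0, 0)) (amap (fun x => (x, 1)) - amap (fun x => (x, 0)))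

lemma abd_sd (c : LC R E) : abd (sd c) = sd (abd c) := rc_chain c

lemma abd_sdh (c : LC R E) : abd (sdh c) + sdh (abd c) = c - sd c :=
  rc_htpy (fun c => by simp [abd_sd]) (fun v => by
    simp [sd, rc_zero, Subsingleton.elim v Fin.elim0]) c

omit [AddCommGroup E] [Module ℝ E] in
lemma abd_pri (c : LC R E) :
    abd (pri c) + pri (abd c) = amap (fun x => (x, 1)) c - amap (fun x => (x, 0)) c :=
  rc_htpy (fun c => by simp [abd_amap]) (fun v => by
    simp only [LinearMap.sub_apply, amap_ax, sub_eq_zero]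
    congr 1; exact Subsingleton.elim _ _) c

lemma sd_nat (φ : E →ₗ[ℝ] E') (c : LC R E) : amap φ (sd c) = sd (amap φ c) :=
  rc_nat φ φ (fun k v => by simp [bary]) (fun _ => by simp) c

lemma sdh_nat (φ : E →ₗ[ℝ] E') (c : LC R E) : amap φ (sdh c) = sdh (amap φ c) :=
  rc_nat φ φ (fun _ _ => rfl) (fun c => by simp [sd_nat]) c

omit [AddCommGroup E] [Module ℝ E] [AddCommGroup E'] [Module ℝ E'] in
lemma pri_nat (φ : E → E') (c : LC R E) : amap (Prod.map φ id) (pri c) = pri (amap φ c) :=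
  rc_nat φ (Prod.map φ id) (fun _ _ => rfl) (fun c => by
    simp only [LinearMap.sub_apply, map_sub, amap_amap]; rfl) c

lemma sd_mem {K : Set E} (hK : Convex ℝ K) {k : ℕ} {c : LC R E} (hc : c ∈ lsub R K k) :
    sd c ∈ lsub R K k :=
  rc_mem (d := 0) (Or.inl rfl) (bary_mem hK) (fun _ _ _ => by simp) hc

lemma sdh_mem {K : Set E} (hK : Convex ℝ K) {k : ℕ} {c : LC R E} (hc : c ∈ lsub R K k) :
    sdh c ∈ lsub R K (k + 1) :=
  rc_mem (Or.inr rfl) (fun _ _ hv => hv 0) (fun _ _ hc => sub_mem hc (sd_mem hK hc)) hc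

omit [AddCommGroup E] [Module ℝ E] in
lemma pri_mem {K : Set E} {k : ℕ} {c : LC R E} (hc : c ∈ lsub R K k) :
    pri c ∈ lsub R (K ×ˢ Icc (0 : ℝ) 1) (k + 1) :=
  rc_mem (Or.inr rfl) (fun _ _ hv => mk_mem_prod (hv 0) (by simp)) (fun _ _ hc => sub_mem
    (amap_mem (fun _ hx => mk_mem_prod hx (by simp)) hc)
    (amap_mem (fun _ hx => mk_mem_prod hx (by simp)) hc)) hc

end vec

section diam
variable [NormedAddCommGroup E] [NormedSpace ℝ E]

/-- Chains with `k` vertices in `K`, each simplex of diameter at most `r`. -/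
noncomputable def dsub (R : Type) [CommRing R] (K : Set E) (k : ℕ) (r : ℝ) : Submodule R (LC R E) :=
  supported R R {a | a.1 = k ∧ (∀ i, a.2 i ∈ K) ∧ ∀ i j, dist (a.2 i) (a.2 j) ≤ r}

lemma dist_bary {k n : ℕ} (hk : k ≤ n) {r : ℝ} (v : Fin (k + 1) → E)
    (hv : ∀ i j, dist (v i) (v j) ≤ r) (j : Fin (k + 1)) :
    dist (bary k v) (v j) ≤ n / (n + 1) * r := by
  have hr : 0 ≤ r := dist_nonneg.trans (hv 0 0)
  have e : bary k v - v j = ∑ i, ((k + 1 : ℝ)⁻¹) • (v (j.succAbove i) - v j) := by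
    have h1 : v j = ∑ _i : Fin (k + 1), ((k + 1 : ℝ)⁻¹) • v j := by
      rw [Finset.sum_const, Finset.card_univ, Fintype.card_fin, ← Nat.cast_smul_eq_nsmul ℝ,
        smul_smul]
      push_cast
      rw [mul_inv_cancel₀ (by positivity), one_smul]
    have h2 : bary k v - v j = ∑ i, ((k + 1 : ℝ)⁻¹) • (v i - v j) := by
      conv_lhs => rw [h1]
      simp only [bary, smul_sub, Finset.sum_sub_distrib]
    rw [h2, Fin.sum_univ_succAbove _ j]; simp
  rw [dist_eq_norm, e]
  refine (norm_sum_le _ _).trans ((Finset.sum_le_sum (g := fun _ => (k + 1 : ℝ)⁻¹ * r)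
    fun i _ => ?_).trans ?_)
  · rw [norm_smul, Real.norm_of_nonneg (by positivity), ← dist_eq_norm]
    exact mul_le_mul_of_nonneg_left (hv _ _) (by positivity)
  · simp only [Finset.sum_const, Finset.card_univ, Fintype.card_fin, nsmul_eq_mul]
    rw [← mul_assoc]
    refine mul_le_mul_of_nonneg_right ?_ hr
    rw [← div_eq_mul_inv, div_le_div_iff₀ (by positivity) (by positivity)]
    have : (k : ℝ) ≤ n := by exact_mod_cast hk
    nlinarith

lemma sd_dsub {n : ℕ} {r : ℝ} {k : ℕ} (hk : k ≤ n) {K : Set E} (hK : Convex ℝ K) {c : LC R E}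
    (hc : c ∈ dsub R K k r) : sd c ∈ dsub R K k (n / (n + 1) * r) := by
  induction k generalizing c K with
  | zero =>
    refine supp_mem sd ?_ hc
    rintro ⟨_, v⟩ ⟨rfl, -⟩
    have := rc_zero (R := R) (ε := 1) (c₀ := 1) (b := bary) (A := 0) v
    rw [one_smul] at this
    show rc 1 1 bary 0 (ax R v) ∈ _
    rw [this]
    exact single_mem_supported R 1 ⟨rfl, fun i => i.elim0, fun i => i.elim0⟩
  | succ k ih =>
    refine supp_mem sd ?_ hc
    rintro ⟨_, v⟩ ⟨rfl, hv, hd⟩
    show rc 1 1 bary 0 (ax R v) ∈ _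
    rw [rc_succ, LinearMap.zero_apply, zero_add, one_smul]
    have h1 : abd (ax R v) ∈ dsub R (K ∩ Metric.closedBall (bary k v) (n / (n + 1) * r)) k r := by
      rw [abd_succ]
      refine Submodule.sum_mem _ fun i _ => Submodule.smul_mem _ _ ?_
      exact single_mem_supported R 1 ⟨rfl, fun j => ⟨hv _, Metric.mem_closedBall'.2
        (dist_bary (by omega) v hd _)⟩, fun _ _ => hd _ _⟩
    refine supp_mem (cone _) ?_ (ih (by omega) (hK.inter (convex_closedBall _ _)) h1)
    rintro ⟨_, w⟩ ⟨rfl, hw, hwd⟩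
    have := cone_ax (R := R) (bary _ v) w
    unfold ax at this
    rw [this]
    have hr : 0 ≤ r := dist_nonneg.trans (hd 0 0)
    refine single_mem_supported R 1 ⟨rfl, fun j => Fin.cases (bary_mem hK _ v hv)
      (fun j => (hw j).1) j, fun i j => ?_⟩
    refine Fin.cases ?_ (fun i => ?_) i <;> refine Fin.cases ?_ (fun j => ?_) j
    · simp; positivity
    · exact Metric.mem_closedBall'.1 (hw j).2
    · exact (hw i).2
    · exact hwd i j

lemma sd_pow_dsub {r : ℝ} {k : ℕ} {K : Set E} (hK : Convex ℝ K) {c : LC R E}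
    (hc : c ∈ dsub R K k r) (m : ℕ) :
    ((sd : Module.End R (LC R E)) ^ m) c ∈ dsub R K k (((k : ℝ) / (k + 1)) ^ m * r) := by
  induction m with
  | zero => simpa using hc
  | succ m ih =>
    rw [pow_succ' sd, Module.End.mul_apply, pow_succ', mul_assoc]
    exact sd_dsub le_rfl hK ih

end diam

end Pool.Agent.Lib.Helper83
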