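import Pool.Agent.Lib.Helper83.Small

/-! Comparison with the singular homology of Mathlib. -/

open Set Finsupp CategoryTheory AlgebraicTopology Limits

namespace Pool.Agent.Lib.Helper83

variable {R : Type} [CommRing R] {X Y : Type} [TopologicalSpace X] [TopologicalSpace Y]

lemma pi_eq_zero (K : ChainComplex (ModuleCat.{0} R) ℕ) (n : ℕ) (z : K.cycles n) :
    (K.homologyπ n).hom z = 0 ↔ ∃ x, (K.d (n + 1) n).hom x = (K.iCycles n).hom z := by
  constructor
  · intro h
    have ex := ShortComplex.exact_of_g_is_cokernel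
      (ShortComplex.mk (K.toCycles (n + 1) n) (K.homologyπ n) (K.toCycles_comp_homologyπ _ _))
      (K.homologyIsCokernel (n + 1) n (by simp))
    obtain ⟨x, hx⟩ := (ShortComplex.moduleCat_exact_iff _).1 ex z h
    refine ⟨x, ?_⟩
    rw [← K.toCycles_i (n + 1) n, ← hx]; rfl
  · rintro ⟨x, hx⟩
    have : (K.toCycles (n + 1) n).hom x = z := by
      apply (ModuleCat.mono_iff_injective (K.iCycles n)).1 inferInstance
      rw [← hx, ← K.toCycles_i (n + 1) n]; rfl
    rw [← this]
    exact congrArg (fun f => f.hom x) (K.toCycles_comp_homologyπ (n + 1) n)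

lemma exists_cycle (K : ChainComplex (ModuleCat.{0} R) ℕ) (n : ℕ) (x : K.X (n + 1))
    (h : (K.d (n + 1) n).hom x = 0) : ∃ z, (K.iCycles (n + 1)).hom z = x := by
  have h1 : (ModuleCat.ofHom (LinearMap.toSpanSingleton R _ x) : ModuleCat.of R R ⟶ K.X (n + 1)) ≫
      K.d (n + 1) n = 0 := ModuleCat.hom_ext (LinearMap.ext_ring (by simpa using h))
  exact ⟨(K.liftCycles _ n (by simp) h1).hom 1,
    (congrArg (fun f => f.hom (1 : R)) (K.liftCycles_i _ n (by simp) h1)).trans (one_smul _ _)⟩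

lemma inj_homologyMap {K L : ChainComplex (ModuleCat.{0} R) ℕ} (φ : K ⟶ L) (n : ℕ)
    (h : ∀ z, (∃ y, (L.d (n + 1) n).hom y = (φ.f n).hom z) → ∃ x, (K.d (n + 1) n).hom x = z) :
    Function.Injective (HomologicalComplex.homologyMap φ n).hom := by
  rw [injective_iff_map_eq_zero]
  intro a ha
  obtain ⟨z, rfl⟩ := (ModuleCat.epi_iff_surjective (K.homologyπ n)).1 inferInstance a
  have h1 : (L.homologyπ n).hom ((HomologicalComplex.cyclesMap φ n).hom z) = 0 := by
    rw [← ha]
    exact (congrArg (fun f => f.hom z) (HomologicalComplex.homologyπ_naturality φ n)).symm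
  obtain ⟨y, hy⟩ := (pi_eq_zero L n _).1 h1
  refine (pi_eq_zero K n z).2 (h _ ⟨y, hy.trans ?_⟩)
  exact congrArg (fun f => f.hom z) (HomologicalComplex.cyclesMap_i φ n)

/-- The singular chain complex of Mathlib. -/
noncomputable abbrev KK (R X : Type) [CommRing R] [TopologicalSpace X] :
    ChainComplex (ModuleCat.{0} R) ℕ :=
  (TopCat.toSSet.obj (TopCat.of X)).chainComplex (ModuleCat.of R R)

/-- A simplex of the singular set as a continuous map. -/
noncomputable def eqv (X : Type) [TopologicalSpace X] (n : ℕ) :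
    (TopCat.toSSet.obj (TopCat.of X)).obj (Opposite.op (SimplexCategory.mk n)) ≃ C(Dl (n + 1), X) :=
  (TopCat.of X).toSSetObjEquiv _

/-- The generator of the chain group attached to a simplex. -/
noncomputable def gen (R : Type) [CommRing R] {n : ℕ} (s : C(Dl (n + 1), X)) : (KK R X).X n :=
  (SSet.ιChainComplex (R := ModuleCat.of R R) _ ((eqv X n).symm s)).hom 1

lemma gen_ext {n : ℕ} {M : Type} [AddCommGroup M] [Module R M] (f g : (KK R X).X n →ₗ[R] M)
    (h : ∀ s, f (gen R s) = g (gen R s)) : f = g := by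
  have : ModuleCat.ofHom f = ModuleCat.ofHom g := by
    refine SSet.chainComplex_hom_ext fun x => ?_
    refine ModuleCat.hom_ext (LinearMap.ext_ring ?_)
    simpa [gen] using h (eqv X n x)
  exact congrArg ModuleCat.Hom.hom this

/-- From the chains of Mathlib to ours. -/
noncomputable def toCh (n : ℕ) : (KK R X).X n →ₗ[R] Ch R X :=
  ((SSet.isColimitChainComplexXCofan _ (ModuleCat.of R R) n).desc
    (Cofan.mk (ModuleCat.of R (Ch R X)) fun x =>
      ModuleCat.ofHom (LinearMap.toSpanSingleton R _ (sx R (eqv X n x))))).hom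

lemma toCh_gen {n : ℕ} (s : C(Dl (n + 1), X)) : toCh n (gen R s) = sx R s := by
  have := (SSet.isColimitChainComplexXCofan (TopCat.toSSet.obj (TopCat.of X))
    (ModuleCat.of R R) n).fac (Cofan.mk (ModuleCat.of R (Ch R X)) fun x =>
      ModuleCat.ofHom (LinearMap.toSpanSingleton R _ (sx R (eqv X n x)))) ⟨(eqv X n).symm s⟩
  have h := congrArg (fun f => f.hom (1 : R)) this
  simp only [Cofan.mk_ι_app, Equiv.apply_symm_apply, ModuleCat.hom_ofHom] at h
  exact h.trans (one_smul _ _)

/-- From our chains to those of Mathlib. -/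
noncomputable def ofCh (n : ℕ) : Ch R X →ₗ[R] (KK R X).X n :=
  linearCombination R fun a => if h : a.1 = n + 1 then gen R (h ▸ a.2) else 0

lemma ofCh_sx {n : ℕ} (s : C(Dl (n + 1), X)) : ofCh n (sx R s) = gen R s := by
  simp [ofCh, sx]

lemma ofCh_toCh (n : ℕ) (x : (KK R X).X n) : ofCh n (toCh n x) = x :=
  LinearMap.congr_fun (gen_ext (ofCh n ∘ₗ toCh n) LinearMap.id fun s => by
    simp [toCh_gen, ofCh_sx]) x

lemma toCh_ofCh {n : ℕ} {S : Set X} {c : Ch R X} (hc : c ∈ sub R S (n + 1)) :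
    toCh n (ofCh n c) = c :=
  sub_eq (toCh n ∘ₗ ofCh n) LinearMap.id (fun s _ => by simp [toCh_gen, ofCh_sx]) hc

lemma toCh_inj (n : ℕ) : Function.Injective (toCh (R := R) (X := X) n) :=
  Function.LeftInverse.injective (ofCh_toCh n)

lemma toCh_mem (n : ℕ) (x : (KK R X).X n) : toCh n x ∈ sub R univ (n + 1) := by
  have := gen_ext ((sub R (univ : Set X) (n + 1)).mkQ ∘ₗ toCh n) 0 fun s => by
    simpa [toCh_gen] using sx_mem fun _ => mem_univ _
  simpa using LinearMap.congr_fun this x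

lemma toCh_d (n : ℕ) (x : (KK R X).X (n + 1)) :
    toCh n (((KK R X).d (n + 1) n).hom x) = bd (toCh (n + 1) x) := by
  refine LinearMap.congr_fun (gen_ext (toCh n ∘ₗ ((KK R X).d (n + 1) n).hom) (bd ∘ₗ toCh (n + 1))
    fun s => ?_) x
  have h := congrArg (fun f => f.hom (1 : R)) (SSet.ιChainComplex_d
    (TopCat.toSSet.obj (TopCat.of X)) (ModuleCat.of R R) ((eqv X (n + 1)).symm s))
  simp only [LinearMap.comp_apply, toCh_gen, bd_succ]
  refine (congrArg (toCh n) h).trans ?_
  simp only [ModuleCat.hom_sum, LinearMap.sum_apply, map_sum, ModuleCat.hom_zsmul,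
    LinearMap.smul_apply, map_zsmul]
  refine Finset.sum_congr rfl fun i _ => ?_
  rw [← toCh_gen, ← Int.cast_smul_eq_zsmul R]
  push_cast
  rfl

lemma toCh_map (f : C(X, Y)) (n : ℕ) (x : (KK R X).X n) :
    toCh n (((SSet.chainComplexMap (TopCat.toSSet.map (TopCat.ofHom f))
      (ModuleCat.of R R)).f n).hom x) = push f (toCh n x) := by
  refine LinearMap.congr_fun (gen_ext (toCh n ∘ₗ ((SSet.chainComplexMap
    (TopCat.toSSet.map (TopCat.ofHom f)) (ModuleCat.of R R)).f n).hom) (push f ∘ₗ toCh n)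
    fun s => ?_) x
  have h := congrArg (fun f => f.hom (1 : R)) (SSet.ι_chainComplexMap_f _ _
    (TopCat.toSSet.map (TopCat.ofHom f)) (ModuleCat.of R R) ((eqv X n).symm s))
  simp only [LinearMap.comp_apply, toCh_gen]
  refine (congrArg (toCh n) h).trans ?_
  rw [push_sx_eq f s (f.comp s) fun _ => rfl, ← toCh_gen]
  rfl

/-- Injectivity in homology from the statement on chains. -/
theorem injective_of_chain (U : Set X) (n : ℕ)
    (h : ∀ z ∈ sub R U (n + 1), z ∈ Bd R univ (n + 1) → z ∈ Bd R U (n + 1)) :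
    Function.Injective ((((singularHomologyFunctor (ModuleCat.{0} R) n).obj (ModuleCat.of R R)).map
      (TopCat.ofHom (⟨Subtype.val, continuous_subtype_val⟩ : C(U, X)))).hom) := by
  refine inj_homologyMap (K := KK R U) (L := KK R X) (SSet.chainComplexMap
    (TopCat.toSSet.map (TopCat.ofHom ⟨Subtype.val, continuous_subtype_val⟩)) _) n ?_
  rintro z ⟨y, hy⟩
  have h1 := congrArg (toCh n) hy
  rw [toCh_d, toCh_map] at h1
  have h2 : push (Subtype.val : U → X) (toCh n z) ∈ sub R U (n + 1) :=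
    push_mem (fun x _ => x.2) (toCh_mem n z)
  obtain ⟨e, he, h3⟩ := h _ h2 ⟨_, toCh_mem _ y, h1⟩
  rcases isEmpty_or_nonempty U with hU | hU
  · refine ⟨0, toCh_inj n ?_⟩
    have := toCh_mem n z
    rw [univ_eq_empty_iff.2 hU] at this
    rw [sub_empty this]; simp
  let r : X → U := Function.extend Subtype.val id fun _ => Classical.arbitrary U
  have hr : ∀ x : U, r x = x := fun x => Subtype.val_injective.extend_apply _ _ x
  have cr : ContinuousOn r U := by
    rw [continuousOn_iff_continuous_domRestrict]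
    exact continuous_id.congr fun t => (hr t).symm
  refine ⟨ofCh (n + 1) (push r e), toCh_inj n ?_⟩
  rw [toCh_d, toCh_ofCh (push_mem (mapsTo_univ r U) he), bd_push cr he, h3,
    push_push r continuous_subtype_val.continuousOn (toCh_mem n z),
    push_eq_self (g := r ∘ Subtype.val) (fun x _ => hr x) (toCh_mem n z)]

/-- An element of prime order in homology from a cycle. -/
theorem exists_order {n p : ℕ} [Fact p.Prime] {c : Ch ℤ X} (hc : c ∈ sub ℤ univ (n + 2))
    (h0 : bd c = 0) (h1 : c ∉ Bd ℤ univ (n + 2)) (h2 : p • c ∈ Bd ℤ univ (n + 2)) :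
    ∃ x : ((singularHomologyFunctor (ModuleCat.{0} ℤ) (n + 1)).obj (ModuleCat.of ℤ ℤ)).obj
      (TopCat.of X), addOrderOf x = p := by
  have hd : ((KK ℤ X).d (n + 1) n).hom (ofCh (n + 1) c) = 0 := toCh_inj n (by
    rw [toCh_d, toCh_ofCh hc, h0, map_zero])
  obtain ⟨z, hz⟩ := exists_cycle (KK ℤ X) n _ hd
  refine ⟨((KK ℤ X).homologyπ (n + 1)).hom z, addOrderOf_eq_prime ?_ fun h => h1 ?_⟩
  · obtain ⟨e, he, h3⟩ := h2
    have := (pi_eq_zero (KK ℤ X) (n + 1) (p • z)).2 ⟨ofCh (n + 2) e, toCh_inj _ (by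
      rw [toCh_d, toCh_ofCh he, h3, map_nsmul, map_nsmul, hz, toCh_ofCh hc])⟩
    rwa [map_nsmul] at this
  · obtain ⟨x, hx⟩ := (pi_eq_zero (KK ℤ X) (n + 1) z).1 h
    refine ⟨_, toCh_mem _ x, ?_⟩
    rw [← toCh_d, hx, hz, toCh_ofCh hc]

end Pool.Agent.Lib.Helper83
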