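import Pool.Agent.Lib.Helper83.Small

/-! Singular one-cocycles and their potentials. -/

open Set Finsupp Filter Topology

namespace Pool.Agent.Lib.Helper83

variable {R : Type} [CommRing R] {X Y : Type} [TopologicalSpace X] [TopologicalSpace Y]
  {A : Type} [AddCommGroup A] [Module R A]

/-- A point as a chain. -/
noncomputable def pt (R : Type) [CommRing R] (x : X) : Ch R X := sx R (ContinuousMap.const (Dl 1) x)

instance : Subsingleton (Dl 1) := ⟨fun a b => by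
  ext i
  have ha := a.2.2
  have hb := b.2.2
  rw [Fin.sum_univ_one] at ha hb
  rw [Subsingleton.elim i 0]
  exact ha.trans hb.symm⟩

lemma sx_one (s : C(Dl 1, X)) : sx R s = pt R (s (stdSimplex.vertex 0)) := by
  unfold pt; congr 1; ext t
  exact congrArg s (Subsingleton.elim _ _)

lemma pt_mem {S : Set X} {x : X} (h : x ∈ S) : pt R x ∈ sub R S 1 := sx_mem fun _ => h

lemma push_pt (g : X → Y) (x : X) : push g (pt R x) = pt R (g x) := push_sx_eq _ _ _ fun _ => rfl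

lemma one_eq {M : Type} [AddCommGroup M] [Module R M] {S : Set X} (T T' : Ch R X →ₗ[R] M)
    (h : ∀ x ∈ S, T (pt R x) = T' (pt R x)) {c : Ch R X} (hc : c ∈ sub R S 1) : T c = T' c :=
  sub_eq T T' (fun s hs => by rw [sx_one]; exact h _ (hs _)) hc

noncomputable def ev0 (φ : X → A) : Sx X → A
  | ⟨0, _⟩ => 0
  | ⟨_ + 1, s⟩ => φ (s (stdSimplex.vertex 0))

/-- Evaluation of a function on zero-dimensional chains. -/
noncomputable def ev (φ : X → A) : Ch R X →ₗ[R] A := linearCombination R (ev0 φ)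

@[simp] lemma ev_pt (φ : X → A) (x : X) : ev φ (pt R x) = φ x := by simp [ev, pt, sx, ev0]

lemma bd_two (s : C(Dl 2, X)) :
    bd (sx R s) = pt R (s (stdSimplex.vertex 1)) - pt R (s (stdSimplex.vertex 0)) := by
  rw [bd_succ, Fin.sum_univ_two, sx_one, sx_one]
  simp [face, sub_eq_add_neg]

/-- The singular edge traced by `γ` on the unit interval. -/
noncomputable def edge (R : Type) [CommRing R] (γ : ℝ → X) : Ch R X := push γ (affL (ax R ![0, 1]))

lemma unit_mem : affL (ax R ![(0 : ℝ), 1]) ∈ sub R (Icc (0 : ℝ) 1) 2 :=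
  affL_mem (convex_Icc _ _) (ax_mem fun i => by fin_cases i <;> simp)

lemma edge_mem {S : Set X} {γ : ℝ → X} (h : MapsTo γ (Icc 0 1) S) : edge R γ ∈ sub R S 2 :=
  push_mem h unit_mem

lemma bd_edge {γ : ℝ → X} (h : ContinuousOn γ (Icc 0 1)) :
    bd (edge R γ) = pt R (γ 1) - pt R (γ 0) := by
  rw [edge, bd_push h unit_mem, affL_ax, bd_two, map_sub, push_pt, push_pt]
  simp [aff, lin_apply]

lemma push_edge (g : X → Y) {γ : ℝ → X} (h : ContinuousOn γ (Icc 0 1)) :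
    push g (edge R γ) = edge R (g ∘ γ) := push_push g h unit_mem

lemma edge_congr {γ γ' : ℝ → X} (h : EqOn γ γ' (Icc 0 1)) : edge R γ = edge R γ' :=
  push_congr h unit_mem

/-- One-cocycles on `S`. -/
def IsCoc (ω : Ch R X →ₗ[R] A) (S : Set X) : Prop := ∀ e ∈ sub R S 3, ω (bd e) = 0

/-- `φ` is a potential of `ω` on `S`. -/
def IsPot (ω : Ch R X →ₗ[R] A) (S : Set X) (φ : X → A) : Prop :=
  ∀ c ∈ sub R S 2, ω c = ev φ (bd c)

variable {ω ω' : Ch R X →ₗ[R] A} {S S' : Set X} {φ φ' : X → A}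

lemma isPot_iff : IsPot ω S φ ↔ ∀ s : C(Dl 2, X), (∀ t, s t ∈ S) →
    ω (sx R s) = φ (s (stdSimplex.vertex 1)) - φ (s (stdSimplex.vertex 0)) :=
  ⟨fun h s hs => by rw [h _ (sx_mem hs), bd_two]; simp,
    fun h _ hc => sub_eq ω (ev φ ∘ₗ bd) (fun s hs => by rw [h s hs]; simp [bd_two]) hc⟩

lemma IsCoc.mono (h : IsCoc ω S) (hs : S' ⊆ S) : IsCoc ω S' := fun e he => h e (sub_mono hs he)

lemma IsPot.mono (h : IsPot ω S φ) (hs : S' ⊆ S) : IsPot ω S' φ := fun e he => h e (sub_mono hs he)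

lemma IsCoc.sub (h : IsCoc ω S) (h' : IsCoc ω' S) : IsCoc (ω - ω') S := fun e he => by
  simp [h e he, h' e he]

lemma IsCoc.of_Bd (h : IsCoc ω S) {c : Ch R X} (hc : c ∈ Bd R S 2) : ω c = 0 := by
  obtain ⟨e, he, rfl⟩ := hc
  exact h e he

lemma IsPot.sub (h : IsPot ω S φ) (h' : IsPot ω' S φ') : IsPot (ω - ω') S (φ - φ') := by
  rw [isPot_iff] at *
  intro s hs
  simp only [LinearMap.sub_apply, h s hs, h' s hs, Pi.sub_apply]; abel

lemma IsPot.congr (h : IsPot ω S φ) (a : A) (e : ∀ x ∈ S, φ' x = φ x + a) : IsPot ω S φ' := by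
  rw [isPot_iff] at *
  intro s hs
  rw [h s hs, e _ (hs _), e _ (hs _)]; abel

lemma IsCoc.pull {T : Set Y} {g : Y → X} (h : IsCoc ω S) (hg : ContinuousOn g T)
    (mg : MapsTo g T S) : IsCoc (ω ∘ₗ push g) T := fun e he => by
  rw [LinearMap.comp_apply, ← bd_push hg he]; exact h _ (push_mem mg he)

lemma IsPot.pull {T : Set Y} {g : Y → X} (h : IsPot ω S φ) (hg : ContinuousOn g T)
    (mg : MapsTo g T S) : IsPot (ω ∘ₗ push g) T (φ ∘ g) := by
  rw [isPot_iff] at *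
  intro s hs
  rw [LinearMap.comp_apply, push_sx g s (cont_of hg hs), h _ fun t => mg (hs t)]; rfl

/-- Transport of a potential through a local section of a parametrisation. -/
lemma IsPot.of_pull {T : Set Y} {g : Y → X} {ψ : Y → A} (h : IsPot (ω ∘ₗ push g) T ψ) {j : X → Y}
    (hj : ContinuousOn j S) (mj : MapsTo j S T) (e : ∀ x ∈ S, g (j x) = x) :
    IsPot ω S (ψ ∘ j) := fun c hc => by
  rw [← h.pull hj mj c hc, LinearMap.comp_apply, LinearMap.comp_apply, push_push g hj hc,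
    push_eq_self (g := g ∘ j) e hc]

lemma IsPot.edge (h : IsPot ω S φ) {γ : ℝ → X} (hγ : ContinuousOn γ (Icc 0 1))
    (mγ : MapsTo γ (Icc 0 1) S) : ω (edge R γ) = φ (γ 1) - φ (γ 0) := by
  rw [h _ (edge_mem mγ), bd_edge hγ]; simp

lemma IsPot.edge' {T : Set Y} {g : Y → X} {ψ : Y → A} (h : IsPot (ω ∘ₗ push g) T ψ) {γ : ℝ → Y}
    (hγ : ContinuousOn γ (Icc 0 1)) (mγ : MapsTo γ (Icc 0 1) T) :
    ω (Helper83.edge R fun t => g (γ t)) = ψ (γ 1) - ψ (γ 0) := by
  rw [← h.edge hγ mγ, LinearMap.comp_apply, push_edge g hγ]; rfl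

lemma IsPot.unique (h : IsPot ω S φ) (h' : IsPot ω S φ') {a b : X} (j : JoinedIn S a b) :
    φ b - φ a = φ' b - φ' a := by
  obtain ⟨γ, hγ⟩ := j
  have m : MapsTo γ.extend (Icc 0 1) S := fun t ht => by rw [γ.extend_apply ht]; exact hγ _
  have h1 := h.edge γ.continuous_extend.continuousOn m
  have h2 := h'.edge γ.continuous_extend.continuousOn m
  simpa using h1.symm.trans h2

lemma IsCoc.pot_point (h : IsCoc ω S) {p : X} (hp : p ∈ S) : IsPot ω {p} 0 := fun c hc => by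
  have h0 : bd c = 0 := sub_eq bd 0 (fun s hs => by
    rw [bd_two, hs, hs]; simp) hc
  have := push_const (R := R) p hc h0
  rw [push_eq_self (S := {p}) (fun x hx => hx.symm) hc] at this
  rw [h0, map_zero, h.of_Bd (Bd_mono (singleton_subset_iff.2 hp) this)]

lemma zero_bd (hS : ∀ a ∈ S, ∀ b ∈ S, JoinedIn S a b) {z : Ch R X} (hz : z ∈ sub R S 1)
    (h : bd z = 0) : z ∈ Bd R S 1 := by
  rcases S.eq_empty_or_nonempty with rfl | ⟨p, hp⟩
  · rw [sub_empty hz]; exact zero_mem _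
  have := sub_ind (N := Bd R S 1) (LinearMap.id - linearCombination R (fun _ => pt R p) ∘ₗ bd)
    (fun s hs => ?_) hz
  · simpa [h] using this
  obtain ⟨γ, hγ⟩ := hS p hp _ (hs (stdSimplex.vertex 0))
  refine ⟨edge R γ.extend, edge_mem fun t ht => by rw [γ.extend_apply ht]; exact hγ _, ?_⟩
  rw [bd_edge γ.continuous_extend.continuousOn, LinearMap.sub_apply, LinearMap.comp_apply, bd_succ,
    sx_one s]
  simp [sx]

variable [Nonempty X]

lemma IsCoc.pot_deform (h : IsCoc ω S) {H : X × ℝ → X} (hH : ContinuousOn H (S ×ˢ Icc (0 : ℝ) 1))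
    (h1 : MapsTo H (S ×ˢ Icc (0 : ℝ) 1) S) (h3 : ∀ x ∈ S, H (x, 0) = x)
    (h4 : ∀ x ∈ S, H (x, 1) ∈ S') (h' : IsPot ω S' φ') : ∃ φ, IsPot ω S φ := by
  refine ⟨fun x => φ' (H (x, 1)) - ω (Pri H (pt R x)), fun c hc => ?_⟩
  have e := congrArg ω (bd_Pri hH hc)
  have c1 : ContinuousOn (fun x => H (x, 1)) S :=
    hH.comp (by fun_prop) fun x hx => ⟨hx, by simp⟩
  rw [push_eq_self h3 hc, map_add, map_sub, h _ (Pri_mem h1 hc), h' _ (push_mem h4 hc),
    bd_push c1 hc] at e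
  rw [one_eq (ev _) (ev φ' ∘ₗ push (fun x => H (x, 1)) - ω ∘ₗ Pri H)
    (fun x _ => by simp [push_pt]) (bd_mem hc)]
  simp only [LinearMap.sub_apply, LinearMap.comp_apply]
  linear_combination (norm := abel) e

lemma IsCoc.pot_star {E : Type} [NormedAddCommGroup E] [NormedSpace ℝ E] {S : Set E} {p : E}
    {ω : Ch R E →ₗ[R] A} (h : IsCoc ω S) (hp : p ∈ S) (hS : StarConvex ℝ p S) :
    ∃ φ, IsPot ω S φ :=
  h.pot_deform (H := fun q => q.2 • p + (1 - q.2) • q.1) (by fun_prop)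
    (fun q hq => hS hq.1 hq.2.1 (sub_nonneg.2 hq.2.2) (by ring)) (by simp) (by simp)
    (h.pot_point hp)

lemma IsCoc.pot_convex {E : Type} [NormedAddCommGroup E] [NormedSpace ℝ E] {S : Set E}
    {ω : Ch R E →ₗ[R] A} (h : IsCoc ω S) (hS : Convex ℝ S) : ∃ φ, IsPot ω S φ := by
  rcases S.eq_empty_or_nonempty with rfl | ⟨p, hp⟩
  · exact ⟨0, fun c hc => by simp [sub_empty hc]⟩
  · exact h.pot_star hp (hS hp)

/-- A local potential is a potential. -/
lemma IsCoc.of_local (h : IsCoc ω S) (hl : ∀ x ∈ S, ∃ N, IsOpen N ∧ x ∈ N ∧ IsPot ω (S ∩ N) φ) :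
    IsPot ω S φ := by
  intro c hc
  rcases S.eq_empty_or_nonempty with rfl | ⟨p, hp⟩
  · simp [sub_empty hc]
  have : Nonempty S := ⟨⟨p, hp⟩⟩
  choose N h1 h2 h3 using fun x : S => hl x x.2
  obtain ⟨m, hm⟩ := (eventually_small h1 (fun x hx => mem_iUnion.2 ⟨⟨x, hx⟩, h2 _⟩) hc).exists
  obtain ⟨T, t1, t2⟩ := exists_htpy (R := R) (X := X) m
  have z : ∀ c ∈ small R S N 2, (ω - ev φ ∘ₗ bd : Ch R X →ₗ[R] A) c = 0 := fun c hc =>
    small_ind (P := ⊥) (ω - ev φ ∘ₗ bd) (fun i c hc => by simp [h3 i c hc]) hc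
  have z2 : T (bd c) ∈ small R S N 2 := sub_ind T (fun s hs => by
    rw [sx_one]
    exact sub_small ⟨_, hs _⟩ (t2 _ _ _ (pt_mem ⟨hs _, h2 _⟩))) (bd_mem hc)
  have : (ω - ev φ ∘ₗ bd : Ch R X →ₗ[R] A) c = 0 := by
    rw [t1 c, map_add, map_add, z _ hm, z _ z2]
    simp [h _ (t2 _ _ _ hc)]
  simpa [sub_eq_zero] using this

lemma Sd_pt (x : X) : Sd (pt R x) = pt R x := by
  rw [pt, ← push_ext, Sd_real (convex_stdSimplex _ _) (ext_cont _) (ee_mem 1), push_ext, sd,
    rc_succ, abd_succ, Fin.sum_univ_one]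
  simp only [LinearMap.zero_apply, Fin.val_zero, pow_zero, one_smul, rc_zero, zero_add, cone_ax,
    affL_ax]
  refine push_sx_eq _ _ _ fun t => ext_maps (S := {x}) (fun _ => rfl) ?_
  exact aff_mem (convex_stdSimplex _ _) (fun i => Fin.cases
    (bary_mem (convex_stdSimplex _ _) _ _ fun i => single_mem_stdSimplex ℝ i) (fun i => i.elim0) i) t

lemma Sd_pow_one {c : Ch R X} (hc : c ∈ sub R S 1) (m : ℕ) : (Sd ^ m) c = c := by
  induction m with
  | zero => simp
  | succ m ih =>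
    rw [pow_succ', Module.End.mul_apply, ih]
    exact one_eq Sd LinearMap.id (fun x _ => Sd_pt x) hc

/-- Local functions with locally constant differences are the potentials of a cocycle. -/
lemma exists_coc {ι : Type} [Nonempty ι] {N : ι → Set X} (hN : ∀ i, IsOpen (N i))
    (cov : S ⊆ ⋃ i, N i) (φ : ι → X → A)
    (hφ : ∀ i j, ∀ x ∈ S ∩ N i ∩ N j, ∀ᶠ y in 𝓝[S] x, φ i y - φ j y = φ i x - φ j x) :
    ∃ ω : Ch R X →ₗ[R] A, IsCoc ω S ∧ ∀ i, IsPot ω (S ∩ N i) (φ i) := by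
  classical
  let ω₀ : Ch R X →ₗ[R] A := linearCombination R fun a =>
    if h : ∃ i, ∀ t, a.2 t ∈ S ∩ N i then ev (φ h.choose) (bd (sx R a.2)) else 0
  have p₀ : ∀ i, IsPot ω₀ (S ∩ N i) (φ i) := by
    intro i
    rw [isPot_iff]
    intro s hs
    have hex : ∃ i, ∀ t, s t ∈ S ∩ N i := ⟨i, hs⟩
    have e : ω₀ (sx R s) = ev (φ hex.choose) (bd (sx R s)) := by
      simp only [ω₀, sx, linearCombination_single, one_smul]; exact dif_pos hex
    have hs' := hex.choose_spec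
    generalize hex.choose = j at *
    have : IsLocallyConstant fun t => φ i (s t) - φ j (s t) := by
      rw [IsLocallyConstant.iff_eventually_eq]
      intro t
      exact (tendsto_nhdsWithin_iff.2 ⟨s.continuous.tendsto t,
        Eventually.of_forall fun t => (hs t).1⟩).eventually (hφ i j _ ⟨hs t, (hs' t).2⟩)
    have := this.apply_eq_of_preconnectedSpace (stdSimplex.vertex 1) (stdSimplex.vertex 0)
    rw [e, bd_two, map_sub, ev_pt, ev_pt]
    linear_combination (norm := abel) -this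
  have p₁ : ∀ i, ∀ c ∈ sub R (S ∩ N i) 2, ∀ m, ω₀ ((Sd ^ m) c) = ω₀ c := fun i c hc m => by
    rw [p₀ i _ (Sd_pow_mem hc m), p₀ i _ hc, bd_Sd_pow, Sd_pow_one (bd_mem hc)]
  have p₂ : ∀ c ∈ small R S N 2, ∀ m, ω₀ ((Sd ^ m) c) = ω₀ c := fun c hc m => by
    have := small_ind (P := ⊥) (ω₀ ∘ₗ (Sd ^ m) - ω₀) (fun i c hc => by simp [p₁ i c hc]) hc
    simpa [sub_eq_zero] using this
  let ω : Ch R X →ₗ[R] A := linearCombination R fun a =>
    ω₀ ((Sd ^ Classical.epsilon fun m => (Sd ^ m) (sx R a.2) ∈ small R S N 2) (sx R a.2))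
  have p₃ : ∀ c ∈ sub R S 2, ∀ᶠ m in atTop, ω c = ω₀ ((Sd ^ m) c) := by
    intro c hc
    let P : Submodule R (Ch R X) :=
      { carrier := {c | ∀ᶠ m in atTop, ω c = ω₀ ((Sd ^ m) c)}
        add_mem' := fun ha hb => (ha.and hb).mono fun m h => by simp only [map_add, h.1, h.2]
        zero_mem' := Eventually.of_forall fun m => by simp only [map_zero]
        smul_mem' := fun r _ ha => ha.mono fun m h => by simp only [map_smul, h] }
    refine sub_ind (N := P) LinearMap.id (fun s hs => ?_) hc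
    have h1 := Classical.epsilon_spec (eventually_small (R := R) hN cov (sx_mem hs)).exists
    have e : ω (sx R s) = ω₀ ((Sd ^ Classical.epsilon fun m => (Sd ^ m) (sx R s) ∈
        small R S N 2) (sx R s)) := by
      simp only [ω, sx, linearCombination_single, one_smul]
    generalize (Classical.epsilon fun m => (Sd ^ m) (sx R s) ∈ small R S N 2) = m₀ at h1 e
    filter_upwards [eventually_ge_atTop m₀] with m hm
    obtain ⟨d, rfl⟩ := Nat.exists_eq_add_of_le' hm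
    rw [LinearMap.id_apply, e, pow_add, Module.End.mul_apply, p₂ _ h1]
  refine ⟨ω, fun e he => ?_, fun i c hc => ?_⟩
  · obtain ⟨m, h1, h2⟩ := ((p₃ _ (bd_mem he)).and (eventually_small hN cov he)).exists
    rw [h1, ← bd_Sd_pow]
    exact small_ind (P := ⊥) (ω₀ ∘ₗ bd) (fun i c hc => by simp [p₀ i _ (bd_mem hc)]) h2
  · obtain ⟨m, h1⟩ := (p₃ _ (sub_mono inter_subset_left hc)).exists
    rw [h1, p₁ i c hc, p₀ i c hc]

end Pool.Agent.Lib.Helper83
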