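import Pool.Agent.Lib.Helper83.Small

/-! Top-degree homology of manifolds relative to compact sets, with mod two coefficients in
mind: an open set with connected complement injects in degrees at least `n - 1`. -/

open Set Finsupp Filter Topology

namespace Pool.Agent.Lib.Helper83

variable {R : Type} [CommRing R] {X Y : Type} [TopologicalSpace X] [TopologicalSpace Y]

/-- `Z / B` is trivial, or, if `f` holds, has at most two elements. -/
def PB {M : Type} [AddCommGroup M] (Z B : Set M) (f : Prop) : Prop :=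
  ∀ c₁ ∈ Z, ∀ c₂ ∈ Z, c₁ ∈ B ∨ (f ∧ (c₂ ∈ B ∨ c₁ - c₂ ∈ B))

lemma PB.transfer {M M' : Type} [AddCommGroup M] [AddCommGroup M'] {Z B : Set M} {Z' B' : Set M'}
    {f : Prop} (h : PB Z' B' f) (Γ : M → M' → Prop) (tot : ∀ c ∈ Z, ∃ c' ∈ Z', Γ c c')
    (hs : ∀ a a' b b', Γ a a' → Γ b b' → Γ (a - b) (a' - b'))
    (refl : ∀ c c', Γ c c' → c' ∈ B' → c ∈ B) : PB Z B f := by
  intro c₁ h₁ c₂ h₂
  obtain ⟨d₁, e₁, g₁⟩ := tot c₁ h₁
  obtain ⟨d₂, e₂, g₂⟩ := tot c₂ h₂
  rcases h d₁ e₁ d₂ e₂ with h | ⟨hf, h | h⟩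
  · exact Or.inl (refl _ _ g₁ h)
  · exact Or.inr ⟨hf, Or.inl (refl _ _ g₂ h)⟩
  · exact Or.inr ⟨hf, Or.inr (refl _ _ (hs _ _ _ _ g₁ g₂) h)⟩

/-- Cycles. -/
def Zc (R : Type) [CommRing R] (S : Set X) (k : ℕ) : Set (Ch R X) := {c | c ∈ sub R S k ∧ bd c = 0}

/-- Smallness of the reduced homology of `S`. -/
def PH (R : Type) [CommRing R] (S : Set X) (k : ℕ) (f : Prop) : Prop :=
  PB (Zc R S k) (Bd R S k) f

variable [Nonempty X]

lemma bd_Bd {S : Set X} {k : ℕ} {c : Ch R X} (hc : c ∈ Bd R S k) : bd c = 0 := by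
  obtain ⟨e, -, rfl⟩ := hc
  exact bd_bd e

lemma PH.dom {S : Set X} {S' : Set Y} {k : ℕ} {fl : Prop} (h : PH R S' k fl) {f : X → Y}
    {g : Y → X} {H : X × ℝ → X} (hf : ContinuousOn f S) (mf : MapsTo f S S')
    (hg : ContinuousOn g S') (mg : MapsTo g S' S) (hH : ContinuousOn H (S ×ˢ Icc (0 : ℝ) 1))
    (mH : MapsTo H (S ×ˢ Icc (0 : ℝ) 1) S) (h0 : ∀ x ∈ S, H (x, 0) = x)
    (h1 : ∀ x ∈ S, H (x, 1) = g (f x)) : PH R S k fl := by
  refine PB.transfer h (fun c c' => c ∈ Zc R S k ∧ c' = push f c) (fun c hc => ?_) ?_ ?_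
  · exact ⟨_, ⟨push_mem mf hc.1, by rw [bd_push hf hc.1, hc.2, map_zero]⟩, hc, rfl⟩
  · rintro a _ b _ ⟨ha, rfl⟩ ⟨hb, rfl⟩
    exact ⟨⟨sub_mem ha.1 hb.1, by rw [map_sub, ha.2, hb.2, sub_zero]⟩, (map_sub _ _ _).symm⟩
  · rintro c _ ⟨hc, rfl⟩ hB
    have h2 := push_Bd hg mg hB
    have h3 := bd_Pri hH hc.1
    rw [hc.2, map_zero, add_zero, push_eq_self h0 hc.1, push_congr (g' := g ∘ f) h1 hc.1] at h3
    rw [push_push g hf hc.1] at h2
    have h4 := sub_mem h2 (bd_mem_Bd (Pri_mem mH hc.1))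
    rwa [h3, sub_sub_cancel] at h4

lemma PH.mv {S U V : Set X} (hU : IsOpen U) (hV : IsOpen V) (cov : S ⊆ U ∪ V) {k : ℕ} {fl : Prop}
    (aU : ∀ c ∈ sub R (S ∩ U) (k + 1), bd c = 0 → c ∈ Bd R (S ∩ U) (k + 1))
    (aV : ∀ c ∈ sub R (S ∩ V) (k + 1), bd c = 0 → c ∈ Bd R (S ∩ V) (k + 1))
    (h : PH R (S ∩ U ∩ (S ∩ V)) k fl) : PH R S (k + 1) fl := by
  refine PB.transfer h (fun c z => ∃ y₁ ∈ sub R (S ∩ U) (k + 1), ∃ y₂ ∈ sub R (S ∩ V) (k + 1),
    c - y₁ - y₂ ∈ Bd R S (k + 1) ∧ z = bd y₁ ∧ z = -bd y₂) (fun c hc => ?_) ?_ ?_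
  · obtain ⟨y₁, h₁, y₂, h₂, h₃⟩ := split hU hV cov hc.1 (zero_mem _) (zero_mem _)
      (by rw [hc.2, add_zero])
    have e : bd y₁ = -bd y₂ := by
      have := bd_Bd h₃
      rw [map_sub, map_sub, hc.2] at this
      linear_combination (norm := abel) -this
    exact ⟨bd y₁, ⟨sub_inter (bd_mem h₁) (e ▸ neg_mem (bd_mem h₂)), bd_bd _⟩, y₁, h₁, y₂, h₂, h₃,
      rfl, e⟩
  · rintro a _ b _ ⟨y₁, h₁, y₂, h₂, h₃, rfl, h₄⟩ ⟨z₁, g₁, z₂, g₂, g₃, rfl, g₄⟩
    refine ⟨y₁ - z₁, sub_mem h₁ g₁, y₂ - z₂, sub_mem h₂ g₂, ?_, (map_sub _ _ _).symm, ?_⟩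
    · convert sub_mem h₃ g₃ using 1; abel
    · rw [map_sub, h₄, g₄]; abel
  · rintro c _ ⟨y₁, h₁, y₂, h₂, h₃, rfl, h₄⟩ ⟨w, hw, e⟩
    have a1 := aU _ (sub_mem h₁ (sub_mono inter_subset_left hw)) (by rw [map_sub, e, sub_self])
    have a2 := aV _ (add_mem h₂ (sub_mono inter_subset_right hw)) (by rw [map_add, e, h₄]; simp)
    have := add_mem (add_mem h₃ (Bd_mono inter_subset_left a1)) (Bd_mono inter_subset_left a2)
    show c ∈ Bd R S (k + 1)
    convert this using 1; abel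

/-- The punctured space has the reduced homology bounds of an `(n-1)`-sphere. -/
def QQ (R : Type) [CommRing R] (E : Type) [TopologicalSpace E] [Zero E] (n : ℕ) : Prop :=
  ∀ k, n ≤ k → PH R ({0}ᶜ : Set E) k (k = n)

lemma QQ_zero : QQ (ZMod 2) (Fin 0 → ℝ) 0 := by
  intro k _ c₁ h₁ c₂ h₂
  have e : ({0}ᶜ : Set (Fin 0 → ℝ)) = ∅ := by
    ext x; simp [Subsingleton.elim x 0]
  rw [e] at h₁ h₂ ⊢
  cases k with
  | succ k => exact Or.inl (by rw [sub_empty h₁.1]; exact zero_mem _)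
  | zero =>
    have key : ∀ c ∈ sub (ZMod 2) (∅ : Set (Fin 0 → ℝ)) 0, c ∈ Submodule.span (ZMod 2)
        {sx (ZMod 2) (ContinuousMap.const (Dl 0) (0 : Fin 0 → ℝ))} := fun c hc =>
      sub_ind LinearMap.id (fun s _ => by
        rw [show s = ContinuousMap.const _ 0 from Subsingleton.elim _ _]
        exact Submodule.mem_span_singleton_self _) hc
    obtain ⟨r₁, rfl⟩ := Submodule.mem_span_singleton.1 (key _ h₁.1)
    obtain ⟨r₂, rfl⟩ := Submodule.mem_span_singleton.1 (key _ h₂.1)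
    have : ∀ a b : ZMod 2, a = 0 ∨ b = 0 ∨ a = b := by decide
    rcases this r₁ r₂ with rfl | rfl | rfl <;> simp

lemma QQ.succ {E : Type} [NormedAddCommGroup E] [NormedSpace ℝ E] {n : ℕ} (h : QQ R E n) :
    QQ R (E × ℝ) (n + 1) := by
  intro k hk
  obtain ⟨k, rfl⟩ : ∃ j, k = j + 1 := ⟨k - 1, by omega⟩
  have star : ∀ r : ℝ, r ≠ 0 → ∀ c ∈ sub R (({0}ᶜ : Set (E × ℝ)) ∩ {p | p.1 ≠ 0 ∨ 0 < r * p.2})
      (k + 1), bd c = 0 → c ∈ Bd R (({0}ᶜ : Set (E × ℝ)) ∩ {p | p.1 ≠ 0 ∨ 0 < r * p.2}) (k + 1) := by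
    intro r hr c hc h0
    have e : ({0}ᶜ : Set (E × ℝ)) ∩ {p | p.1 ≠ 0 ∨ 0 < r * p.2} = {p | p.1 ≠ 0 ∨ 0 < r * p.2} := by
      refine inter_eq_right.2 ?_
      rintro p hp rfl
      simp at hp
    rw [e] at hc ⊢
    refine acyclic_star (p := (0, r)) (Or.inr (mul_self_pos.2 hr)) ?_ hc h0
    intro p hp a b ha hb hab
    have h2 := mul_self_pos.2 hr
    rcases eq_or_lt_of_le hb with rfl | hb
    · right; simp at hab; simp [hab, h2]
    · rcases hp with hp | hp
      · left; simp [hp, hb.ne']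
      · right; simp only [Prod.snd_add, Prod.smul_snd, smul_eq_mul]; nlinarith
  have op : ∀ r : ℝ, IsOpen {p : E × ℝ | p.1 ≠ 0 ∨ 0 < r * p.2} := fun r =>
    (isOpen_ne_fun continuous_fst continuous_const).union
      (isOpen_lt continuous_const (continuous_const.mul continuous_snd))
  refine PH.mv (op 1) (op (-1)) ?_ (star 1 one_ne_zero) (star (-1) (by norm_num)) ?_
  · intro p hp
    by_contra hc
    simp only [mem_union, mem_ofPred_eq, not_or, not_not, not_lt] at hc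
    exact hp (Prod.ext hc.1.1 (by simp only [Prod.snd_zero]; linarith [hc.1.2, hc.2.2]))
  · have e : ({0}ᶜ : Set (E × ℝ)) ∩ {p | p.1 ≠ 0 ∨ 0 < 1 * p.2} ∩
        ({0}ᶜ ∩ {p | p.1 ≠ 0 ∨ 0 < -1 * p.2}) = {p | p.1 ≠ 0} := by
      ext p
      constructor
      · rintro ⟨⟨-, h | h⟩, -, h' | h'⟩
        exacts [h, h, h', by linarith]
      · intro hp
        have : p ∈ ({0}ᶜ : Set (E × ℝ)) := by rintro rfl; simp at hp
        exact ⟨⟨this, Or.inl hp⟩, this, Or.inl hp⟩
    rw [e, show (k + 1 = n + 1) = (k = n) by simp]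
    exact (h k (by omega)).dom (f := Prod.fst) (g := fun x => (x, 0))
      (H := fun q => (q.1.1, (1 - q.2) * q.1.2)) (by fun_prop) (fun _ hp => hp) (by fun_prop)
      (fun _ hp => hp) (by fun_prop) (fun _ hp => hp.1) (by simp) (by simp)

lemma QQ_one : QQ (ZMod 2) ℝ 1 := fun k hk =>
  (QQ_zero.succ k hk).dom (f := fun x => (0, x)) (g := Prod.snd) (H := Prod.fst) (by fun_prop)
    (fun x hx => by simpa using hx) (by fun_prop)
    (fun x hx h => hx (Prod.ext (Subsingleton.elim _ _) h)) (by fun_prop) (fun _ hp => hp.1)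
    (by simp) (by simp)

/-- Relative cycles. -/
def RC (R : Type) [CommRing R] (K : Set X) (k : ℕ) : Set (Ch R X) :=
  {c | c ∈ sub R univ (k + 1) ∧ bd c ∈ sub R Kᶜ k}

/-- Relative boundaries. -/
noncomputable def RB (R : Type) [CommRing R] (K : Set X) (k : ℕ) : Submodule R (Ch R X) :=
  sub R Kᶜ (k + 1) ⊔ Bd R univ (k + 1)

section rel
omit [Nonempty X]
variable {K K' S : Set X} {k : ℕ} {c c' : Ch R X}

lemma RC_mono (h : K ⊆ K') (hc : c ∈ RC R K' k) : c ∈ RC R K k :=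
  ⟨hc.1, sub_mono (compl_subset_compl.2 h) hc.2⟩

lemma RC_sub (hc : c ∈ RC R K k) (hc' : c' ∈ RC R K k) : c - c' ∈ RC R K k :=
  ⟨sub_mem hc.1 hc'.1, by rw [map_sub]; exact sub_mem hc.2 hc'.2⟩

lemma sub_RB (hc : c ∈ sub R Kᶜ (k + 1)) : c ∈ RB R K k := Submodule.mem_sup_left hc

lemma Bd_RB (hc : c ∈ Bd R S (k + 1)) : c ∈ RB R K k :=
  Submodule.mem_sup_right (Bd_mono (subset_univ _) hc)

lemma RB_iff : c ∈ RB R K k ↔ ∃ a ∈ sub R Kᶜ (k + 1), c - a ∈ Bd R univ (k + 1) := by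
  constructor
  · intro h
    obtain ⟨a, ha, b, hb, rfl⟩ := Submodule.mem_sup.1 h
    exact ⟨a, ha, by simpa using hb⟩
  · rintro ⟨a, ha, hb⟩
    simpa using add_mem (sub_RB ha) (Bd_RB hb)

lemma RB_mono (h : K ⊆ K') (hc : c ∈ RB R K' k) : c ∈ RB R K k := by
  obtain ⟨a, ha, hb⟩ := RB_iff.1 hc
  exact RB_iff.2 ⟨a, sub_mono (compl_subset_compl.2 h) ha, hb⟩

end rel

variable {E : Type} [NormedAddCommGroup E] [NormedSpace ℝ E]

omit [Nonempty X] in
lemma exists_univ_chart (e : OpenPartialHomeomorph X E) {x : X} (hx : x ∈ e.source) :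
    ∃ e' : OpenPartialHomeomorph X E, x ∈ e'.source ∧ e'.target = univ := by
  obtain ⟨r, hr, h⟩ := Metric.isOpen_iff.1 e.open_target _ (e.map_source hx)
  refine ⟨e.trans (OpenPartialHomeomorph.univBall (e x) r).symm, ⟨hx, ?_⟩, ?_⟩
  · simp [OpenPartialHomeomorph.univBall_target _ hr, hr]
  · simp only [OpenPartialHomeomorph.trans_target, OpenPartialHomeomorph.symm_target,
      OpenPartialHomeomorph.univBall_source, OpenPartialHomeomorph.symm_symm, univ_inter]
    refine eq_univ_of_forall fun y => h ?_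
    rw [← OpenPartialHomeomorph.univBall_target _ hr]
    exact OpenPartialHomeomorph.map_source _ (by simp)

section chart
variable {e : OpenPartialHomeomorph X E} (he : e.target = univ)
include he

omit [Nonempty X] [NormedSpace ℝ E] in
lemma symm_cont : Continuous e.symm := by
  have := e.continuousOn_symm
  rwa [he, continuousOn_univ] at this

omit [Nonempty X] [NormedSpace ℝ E] in
lemma mem_img {K : Set E} {y : X} : y ∈ e.symm '' K ↔ y ∈ e.source ∧ e y ∈ K := by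
  constructor
  · rintro ⟨z, hz, rfl⟩
    exact ⟨e.map_target (he ▸ mem_univ z), by rwa [e.right_inv (he ▸ mem_univ z)]⟩
  · exact fun h => ⟨_, h.2, e.left_inv h.1⟩

lemma loc [T1Space X] {n : ℕ} (hQ : QQ R E n) {x : X} (hx : x ∈ e.source) {k : ℕ} (hk : n ≤ k) :
    PB (RC R {x} k) (RB R {x} k) (k = n) := by
  have ms : ∀ y, e.symm y ∈ e.source := fun y => e.map_target (he ▸ mem_univ y)
  have ri : ∀ y, e (e.symm y) = y := fun y => e.right_inv (he ▸ mem_univ y)
  have hc := symm_cont he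
  have h1 : PH R (e.source ∩ {x}ᶜ) k (k = n) :=
    (hQ k hk).dom (f := fun y => e y - e x) (g := fun z => e.symm (z + e x)) (H := Prod.fst)
      ((e.continuousOn.mono inter_subset_left).sub continuousOn_const)
      (fun y hy h => hy.2 (e.injOn hy.1 hx (sub_eq_zero.1 h))) (by fun_prop)
      (fun z hz => ⟨ms _, fun h => hz (by
        have := congrArg e h
        rw [ri] at this
        simpa using this)⟩) (by fun_prop) (fun _ hp => hp.1) (by simp)
      (fun y hy => by simp [e.left_inv hy.1])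
  refine PB.transfer h1 (fun c z => ∃ y ∈ sub R e.source (k + 1), c - y ∈ RB R {x} k ∧ z = bd y)
    (fun c hc => ?_) ?_ ?_
  · obtain ⟨y₁, h₁, y₂, h₂, h₃⟩ := split (S := univ) e.open_source isOpen_compl_singleton
      (fun y _ => by
        by_cases h : y = x
        exacts [Or.inl (h ▸ hx), Or.inr h]) hc.1 (zero_mem _) (by rw [univ_inter]; exact hc.2)
      (zero_add _).symm
    rw [univ_inter] at h₁ h₂
    have e1 : bd y₁ = bd c - bd y₂ := by
      have := bd_Bd h₃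
      rw [map_sub, map_sub] at this
      linear_combination (norm := abel) -this
    refine ⟨bd y₁, ⟨sub_inter (bd_mem h₁) (e1 ▸ sub_mem hc.2 (bd_mem h₂)), bd_bd _⟩, y₁, h₁, ?_, rfl⟩
    simpa using add_mem (Bd_RB h₃) (sub_RB h₂)
  · rintro a _ b _ ⟨y₁, h₁, h₂, rfl⟩ ⟨z₁, g₁, g₂, rfl⟩
    refine ⟨y₁ - z₁, sub_mem h₁ g₁, ?_, (map_sub _ _ _).symm⟩
    convert sub_mem h₂ g₂ using 1; abel
  · rintro c _ ⟨y, h₁, h₂, rfl⟩ ⟨w, hw, e1⟩
    have a1 := acyclic (S := e.source) (H := fun q => e.symm ((1 - q.2) • e q.1)) (p := e.symm 0)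
      (hc.comp_continuousOn ((continuousOn_const.sub continuousOn_snd).smul
        (e.continuousOn.comp continuousOn_fst fun _ hp => hp.1))) (fun _ _ => ms _)
      (fun y hy => by simp [e.left_inv hy]) (ms _) (by simp)
      (sub_mem h₁ (sub_mono inter_subset_left hw)) (by rw [map_sub, e1, sub_self])
    have := add_mem (add_mem h₂ (Bd_RB a1)) (sub_RB (sub_mono inter_subset_right hw))
    show c ∈ RB R {x} k
    convert this using 1; abel

variable [T2Space X] [ProperSpace E]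

omit [Nonempty X] in
lemma exists_radial {K : Set E} (hK : Convex ℝ K) (hb : IsCompact K) {x : X}
    (hx : x ∈ e.symm '' K) : ∃ H : X × ℝ → X, ContinuousOn H ({x}ᶜ ×ˢ Icc (0 : ℝ) 1) ∧
      MapsTo H ({x}ᶜ ×ˢ Icc (0 : ℝ) 1) {x}ᶜ ∧
      MapsTo H ((e.symm '' K)ᶜ ×ˢ Icc (0 : ℝ) 1) (e.symm '' K)ᶜ ∧
      (∀ y ∈ ({x}ᶜ : Set X), H (y, 0) = y) ∧ ∀ y ∈ ({x}ᶜ : Set X), H (y, 1) ∈ (e.symm '' K)ᶜ := by
  classical
  have ms : ∀ y, e.symm y ∈ e.source := fun y => e.map_target (he ▸ mem_univ y)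
  have ri : ∀ y, e (e.symm y) = y := fun y => e.right_inv (he ▸ mem_univ y)
  have hc := symm_cont he
  rw [mem_img he] at hx
  obtain ⟨ρ, hρ0, hρ⟩ := hb.isBounded.subset_ball_lt 0 (e x)
  let l : X × ℝ → ℝ := fun q => 1 + q.2 * (max (ρ / ‖e q.1 - e x‖) 1 - 1)
  have l1 : ∀ q : X × ℝ, 0 ≤ q.2 → 1 ≤ l q := fun q hq =>
    le_add_of_nonneg_right (mul_nonneg hq (sub_nonneg.2 (le_max_right _ _)))
  have ne : ∀ y ∈ e.source, y ≠ x → e y - e x ≠ 0 := fun y hy h h' =>
    h (e.injOn hy hx.1 (sub_eq_zero.1 h'))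
  refine ⟨fun q => if q.1 ∈ e.source then e.symm (e x + l q • (e q.1 - e x)) else q.1,
    fun q hq => ContinuousAt.continuousWithinAt ?_, fun q hq => ?_, fun q hq => ?_,
    fun y _ => ?_, fun y hy => ?_⟩
  · by_cases h : q.1 ∈ e.source
    · have h1 : ContinuousAt (fun q : X × ℝ => e q.1) q :=
        (e.continuousAt h).comp continuousAt_fst
      have h2 : ‖e q.1 - e x‖ ≠ 0 := norm_ne_zero_iff.2 (ne _ h hq.1)
      have h3 : ContinuousAt (fun q => e.symm (e x + l q • (e q.1 - e x))) q := by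
        refine hc.continuousAt.comp ?_
        have h4 := h1.sub (continuousAt_const (y := e x))
        exact continuousAt_const.add ((continuousAt_const.add (continuousAt_snd.mul
          (((continuousAt_const.div h4.norm h2).max continuousAt_const).sub
            continuousAt_const))).smul h4)
      refine h3.congr ?_
      filter_upwards [continuousAt_fst.preimage_mem_nhds (e.open_source.mem_nhds h)] with q' hq'
      exact (if_pos hq').symm
    · have h1 : IsClosed (e.symm '' Metric.closedBall (e x) ρ) :=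
        ((isCompact_closedBall _ _).image hc).isClosed
      refine continuousAt_fst.congr ?_
      filter_upwards [continuousAt_fst.preimage_mem_nhds (h1.isOpen_compl.mem_nhds
        fun h' => h ((mem_img he).1 h').1)] with q' hq'
      split_ifs with h2
      · have h3 : ρ < ‖e q'.1 - e x‖ := by
          by_contra h4
          exact hq' ((mem_img he).2 ⟨h2, mem_closedBall_iff_norm.2 (not_lt.1 h4)⟩)
        simp only [l]
        rw [max_eq_right ((div_le_one (by linarith)).2 h3.le)]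
        simp [e.left_inv h2]
      · rfl
  · simp only
    split_ifs with h
    · intro h'
      have h2 := congrArg e h'
      rw [ri, add_eq_left, smul_eq_zero] at h2
      rcases h2 with h2 | h2
      · linarith [l1 q hq.2.1]
      · exact ne _ h hq.1 h2
    · exact hq.1
  · simp only
    split_ifs with h
    · intro h'
      have h2 := ((mem_img he).1 h').2
      rw [ri] at h2
      have h3 := l1 q hq.2.1
      refine hq.1 ((mem_img he).2 ⟨h, ?_⟩)
      have := hK.add_smul_sub_mem hx.2 h2 (t := (l q)⁻¹)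
        ⟨by positivity, inv_le_one_of_one_le₀ h3⟩
      rwa [add_sub_cancel_left, smul_smul, inv_mul_cancel₀ (by linarith), one_smul,
        add_sub_cancel] at this
    · exact hq.1
  · simp only [l]
    split_ifs with h
    · simp [e.left_inv h]
    · rfl
  · simp only [l]
    split_ifs with h
    · intro h'
      have h2 := hρ ((mem_img he).1 h').2
      have h3 := norm_pos_iff.2 (ne _ h hy)
      rw [ri, mem_ball_iff_norm, add_sub_cancel_left, norm_smul, one_mul, add_sub_cancel,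
        Real.norm_of_nonneg (zero_le_one.trans (le_max_right _ _))] at h2
      have h4 := (div_le_iff₀ h3).1 (le_max_left (ρ / ‖e y - e x‖) 1)
      linarith
    · exact fun h' => h ((mem_img he).1 h').1

lemma cv1 {K : Set E} (hK : Convex ℝ K) (hb : IsCompact K) {x : X} (hx : x ∈ e.symm '' K) {k : ℕ}
    {c : Ch R X} (hc : c ∈ RC R (e.symm '' K) k) (h : c ∈ RB R {x} k) :
    c ∈ RB R (e.symm '' K) k := by
  obtain ⟨H, h1, h2, h3, h4, h5⟩ := exists_radial he hK hb hx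
  obtain ⟨a, ha, hb⟩ := RB_iff.1 h
  have e1 : bd a = bd c := by
    have := bd_Bd hb
    rw [map_sub] at this
    linear_combination (norm := abel) -this
  obtain ⟨y, hy, hy'⟩ := deform h1 h2 h3 h4 h5 ha (e1 ▸ hc.2)
  have := add_mem (add_mem (Bd_RB (K := e.symm '' K) hb) (Bd_RB hy')) (sub_RB hy)
  convert this using 1; abel

lemma cv2 {K : Set E} (hK : Convex ℝ K) (hb : IsCompact K) {x : X} (hx : x ∈ e.symm '' K) {k : ℕ}
    {c : Ch R X} (hc : c ∈ RC R {x} k) : ∃ c' ∈ RC R (e.symm '' K) k, c - c' ∈ RB R {x} k := by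
  obtain ⟨H, h1, h2, -, h4, h5⟩ := exists_radial he hK hb hx
  have h6 := bd_Pri h1 hc.2
  rw [bd_bd, map_zero, add_zero, push_eq_self h4 hc.2] at h6
  refine ⟨c + Pri H (bd c), ⟨add_mem hc.1 (sub_mono (subset_univ _) (Pri_mem h2 hc.2)), ?_⟩, ?_⟩
  · rw [map_add, h6, add_sub_cancel]
    exact push_mem h5 hc.2
  · simpa using sub_RB (Pri_mem h2 hc.2)

omit [Nonempty X] [NormedSpace ℝ E] [T2Space X] [ProperSpace E] in
lemma exists_ball {x : X} (hx : x ∈ e.source) {L : Set X} (hL : IsClosed L) (hxL : x ∉ L) :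
    ∃ r > 0, L ⊆ (e.symm '' Metric.closedBall (e x) r)ᶜ ∧
      e.symm '' Metric.closedBall (e x) r ∈ 𝓝 x := by
  obtain ⟨r, hr, h⟩ := Metric.nhds_basis_closedBall.mem_iff.1
    ((symm_cont he).continuousAt.preimage_mem_nhds (x := e x)
      (hL.isOpen_compl.mem_nhds (by rwa [e.left_inv hx])))
  refine ⟨r, hr, ?_, ?_⟩
  · rintro _ hy ⟨z, hz, rfl⟩
    exact h hz hy
  · filter_upwards [e.open_source.mem_nhds hx,
      (e.continuousAt hx).preimage_mem_nhds (Metric.closedBall_mem_nhds _ hr)] with y h1 h2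
    exact (mem_img he).2 ⟨h1, h2⟩

omit [Nonempty X] in
lemma exists_good {x : X} (hx : x ∈ e.source) {k : ℕ} {c : Ch R X} (hc : c ∈ RC R {x} k) :
    ∃ K : Set E, Convex ℝ K ∧ IsCompact K ∧ e.symm '' K ∈ 𝓝 x ∧ c ∈ RC R (e.symm '' K) k := by
  obtain ⟨L, h1, h2, h3⟩ := exists_compact hc.2
  obtain ⟨r, -, h4, h5⟩ := exists_ball he hx h1.isClosed fun h => h2 h rfl
  exact ⟨_, convex_closedBall _ _, isCompact_closedBall _ _, h5, hc.1, sub_mono h4 h3⟩

end chart

/-- Relative classes over `K` are detected by their local values. -/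
def PP (R : Type) [CommRing R] (n : ℕ) (K : Set X) : Prop :=
  ∀ k, n ≤ k → ∀ c ∈ RC R K k, (∀ x ∈ K, c ∈ RB R {x} k) → c ∈ RB R K k

/-- `μ` generates the local homology at `x`. -/
def Gen (n : ℕ) (μ : Ch R X) (x : X) : Prop :=
  ∀ c ∈ RC R {x} n, c ∈ RB R {x} n ∨ c - μ ∈ RB R {x} n

section mfd
variable [T2Space X] [ProperSpace E] {n : ℕ} (hQ : QQ R E n)
  (hX : ∀ x : X, ∃ e : OpenPartialHomeomorph X E, x ∈ e.source ∧ e.target = univ)
include hQ hX

omit [ProperSpace E] in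
lemma loc_high {k : ℕ} (hk : n < k) {x : X} {c : Ch R X} (hc : c ∈ RC R {x} k) :
    c ∈ RB R {x} k := by
  obtain ⟨e, hx, he⟩ := hX x
  exact (loc he hQ hx hk.le c hc c hc).resolve_right fun h => hk.ne' h.1

omit [ProperSpace E] in
lemma PP_union {A B : Set X} (hA : IsClosed A) (hB : IsClosed B) (pA : PP R n A) (pB : PP R n B)
    (pAB : PP R n (A ∩ B)) : PP R n (A ∪ B) := by
  intro k hk c hc hl
  obtain ⟨a, ha, e₁, he₁, h₁⟩ := RB_iff.1 (pA k hk c (RC_mono subset_union_left hc)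
    fun x hx => hl x (Or.inl hx))
  obtain ⟨b, hb, e₂, he₂, h₂⟩ := RB_iff.1 (pB k hk c (RC_mono subset_union_right hc)
    fun x hx => hl x (Or.inr hx))
  have e1 : bd (e₁ - e₂) = -a + b := by rw [map_sub, h₁, h₂]; abel
  have ha' : -a ∈ sub R ((A ∩ B)ᶜ ∩ Aᶜ) (k + 1) :=
    neg_mem (sub_inter (sub_mono (compl_subset_compl.2 inter_subset_left) ha) ha)
  have hb' : b ∈ sub R ((A ∩ B)ᶜ ∩ Bᶜ) (k + 1) :=
    sub_inter (sub_mono (compl_subset_compl.2 inter_subset_right) hb) hb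
  have hu : e₁ - e₂ ∈ RC R (A ∩ B) (k + 1) := ⟨sub_mem he₁ he₂, e1 ▸
    add_mem (sub_mono inter_subset_left ha') (sub_mono inter_subset_left hb')⟩
  obtain ⟨u, hu1, hu2⟩ := RB_iff.1 (pAB (k + 1) (by omega) _ hu fun x hx =>
    loc_high hQ hX (by omega) (RC_mono (singleton_subset_iff.2 hx) hu))
  have e2 : bd u = -a + b := by
    have := bd_Bd hu2
    rw [map_sub, e1] at this
    linear_combination (norm := abel) -this
  obtain ⟨y₁, h₃, y₂, h₄, h₅⟩ := split hA.isOpen_compl hB.isOpen_compl (compl_inter A B).le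
    hu1 ha' hb' e2
  have e3 : a + bd y₁ = b - bd y₂ := by
    have := bd_Bd h₅
    rw [map_sub, map_sub, e2] at this
    linear_combination (norm := abel) -this
  refine RB_iff.2 ⟨a + bd y₁, ?_, e₁ - y₁, sub_mem he₁ (sub_mono (subset_univ _) h₃), ?_⟩
  · rw [compl_union]
    exact sub_inter (add_mem ha (bd_mem (sub_mono inter_subset_right h₃)))
      (e3 ▸ sub_mem hb (bd_mem (sub_mono inter_subset_right h₄)))
  · rw [map_sub, h₁]; abel

lemma PP_fin {e : OpenPartialHomeomorph X E} (he : e.target = univ) {ι : Type} (t : Finset ι)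
    (K : ι → Set E) (hK : ∀ i, Convex ℝ (K i) ∧ IsCompact (K i)) :
    PP R n (⋃ i ∈ t, e.symm '' K i) := by
  classical
  have cl : ∀ L : Set E, IsCompact L → IsClosed (e.symm '' L) := fun L hL =>
    (hL.image (symm_cont he)).isClosed
  induction t using Finset.induction_on generalizing K with
  | empty => exact fun k _ c hc _ => sub_RB (by simpa using hc.1)
  | insert a t _ ih =>
    rw [Finset.set_biUnion_insert]
    refine PP_union hQ hX (cl _ (hK a).2) (isClosed_biUnion_finset fun i _ => cl _ (hK i).2)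
      (fun k _ c hc hl => ?_) (ih K hK) ?_
    · rcases (e.symm '' K a).eq_empty_or_nonempty with h | ⟨x, hx⟩
      · rw [h]; exact sub_RB (by simpa using hc.1)
      · exact cv1 he (hK a).1 (hK a).2 hx hc (hl x hx)
    · convert ih (fun i => K a ∩ K i) fun i => ⟨(hK a).1.inter (hK i).1, (hK a).2.inter (hK i).2⟩
        using 1
      ext y
      simp only [mem_inter_iff, mem_iUnion, mem_img he]
      exact ⟨fun ⟨h, i, hi, h'⟩ => ⟨i, hi, h.1, h.2, h'.2⟩,
        fun ⟨i, hi, h1, h2, h3⟩ => ⟨⟨h1, h2⟩, i, hi, h1, h3⟩⟩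

lemma PP_chart {e : OpenPartialHomeomorph X E} (he : e.target = univ) {K : Set X}
    (hK : IsCompact K) (hs : K ⊆ e.source) : PP R n K := by
  intro k hk c hc hl
  choose L h1 h2 h3 h4 using fun x : K =>
    exists_good he (hs x.2) (RC_mono (singleton_subset_iff.2 x.2) hc)
  obtain ⟨t, ht⟩ := hK.elim_nhds_subcover' (fun x hx => e.symm '' L ⟨x, hx⟩) fun x hx => h3 ⟨x, hx⟩
  refine RB_mono ht (PP_fin hQ hX he t L (fun i => ⟨h1 i, h2 i⟩) k hk c ⟨hc.1, ?_⟩ ?_)
  · intro a ha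
    refine ⟨(hc.2 ha).1, fun s hs => ?_⟩
    simp only [mem_iUnion] at hs
    obtain ⟨i, -, hi⟩ := hs
    exact ((h4 i).2 ha).2 s hi
  · intro y hy
    simp only [mem_iUnion] at hy
    obtain ⟨i, -, hi⟩ := hy
    exact RB_mono (singleton_subset_iff.2 hi)
      (cv1 he (h1 i) (h2 i) (mem_of_mem_nhds (h3 i)) (h4 i) (hl i i.2))

lemma PP_all {K : Set X} (hK : IsCompact K) : PP R n K := by
  have : ∃ K₀, IsClosed K₀ ∧ K ⊆ K₀ ∧ ∀ L, IsCompact L → L ⊆ K₀ → PP R n L := by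
    refine hK.induction_on (p := fun s => ∃ K₀, IsClosed K₀ ∧ s ⊆ K₀ ∧
      ∀ L, IsCompact L → L ⊆ K₀ → PP R n L) ?_ ?_ ?_ ?_
    · refine ⟨∅, isClosed_empty, Subset.rfl, fun L _ hL k _ c hc _ => ?_⟩
      rw [subset_empty_iff.1 hL]; exact sub_RB (by simpa using hc.1)
    · rintro s t hst ⟨K₀, h1, h2, h3⟩
      exact ⟨K₀, h1, hst.trans h2, h3⟩
    · rintro s t ⟨A, h1, h2, h3⟩ ⟨B, g1, g2, g3⟩
      refine ⟨A ∪ B, h1.union g1, union_subset_union h2 g2, fun L hL hs => ?_⟩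
      rw [← inter_eq_left.2 hs, inter_union_distrib_left]
      exact PP_union hQ hX (hL.isClosed.inter h1) (hL.isClosed.inter g1)
        (h3 _ (hL.inter_right h1) inter_subset_right) (g3 _ (hL.inter_right g1) inter_subset_right)
        (h3 _ ((hL.inter_right h1).inter (hL.inter_right g1)) fun _ h => h.1.2)
    · intro x _
      obtain ⟨e, hx, he⟩ := hX x
      obtain ⟨r, -, -, h⟩ := exists_ball he hx isClosed_empty id
      exact ⟨_, mem_nhdsWithin_of_mem_nhds h, _,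
        ((isCompact_closedBall _ _).image (symm_cont he)).isClosed, Subset.rfl,
        fun L hL hs => PP_chart hQ hX he hL fun y hy => ((mem_img he).1 (hs hy)).1⟩
  obtain ⟨K₀, -, h1, h2⟩ := this
  exact h2 K hK h1

lemma exists_gen {K : Set X} (hK : IsCompact K) :
    ∃ K₀, IsCompact K₀ ∧ K ⊆ K₀ ∧ ∃ μ ∈ RC R K₀ n, ∀ x ∈ K₀, Gen n μ x := by
  refine hK.induction_on (p := fun s => ∃ K₀, IsCompact K₀ ∧ s ⊆ K₀ ∧
    ∃ μ ∈ RC R K₀ n, ∀ x ∈ K₀, Gen n μ x) ?_ ?_ ?_ ?_
  · exact ⟨∅, isCompact_empty, Subset.rfl, 0, ⟨zero_mem _, by simp⟩, fun _ h => h.elim⟩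
  · rintro s t hst ⟨K₀, h1, h2, h3⟩
    exact ⟨K₀, h1, hst.trans h2, h3⟩
  · rintro s t ⟨A, h1, h2, a, h3, h4⟩ ⟨B, g1, g2, b, g3, g4⟩
    obtain ⟨u, hu1, hu2⟩ := RB_iff.1 (PP_all hQ hX (h1.inter g1) n le_rfl _
      (RC_sub (RC_mono inter_subset_left h3) (RC_mono inter_subset_right g3)) fun x hx => by
        have ha := RC_mono (singleton_subset_iff.2 hx.1) h3
        have hb := RC_mono (singleton_subset_iff.2 hx.2) g3
        rcases g4 x hx.2 a ha with h | h
        · rcases h4 x hx.1 b hb with h' | h'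
          · exact sub_mem h h'
          · simpa using neg_mem h'
        · exact h)
    have e2 : bd u = bd a + -bd b := by
      have := bd_Bd hu2
      rw [map_sub, map_sub] at this
      linear_combination (norm := abel) -this
    obtain ⟨y₁, h₃, y₂, h₄, h₅⟩ := split h1.isClosed.isOpen_compl g1.isClosed.isOpen_compl
      (compl_inter A B).le hu1
      (sub_inter (sub_mono (compl_subset_compl.2 inter_subset_left) h3.2) h3.2)
      (neg_mem (sub_inter (sub_mono (compl_subset_compl.2 inter_subset_right) g3.2) g3.2)) e2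
    replace h₃ := sub_mono inter_subset_right h₃
    replace h₄ := sub_mono inter_subset_right h₄
    have e3 : bd (a - y₁) = bd b + bd y₂ := by
      have := bd_Bd h₅
      rw [map_sub, map_sub, e2] at this
      rw [map_sub]
      linear_combination (norm := abel) this
    refine ⟨A ∪ B, h1.union g1, union_subset_union h2 g2, a - y₁,
      ⟨sub_mem h3.1 (sub_mono (subset_univ _) h₃), ?_⟩, ?_⟩
    · rw [compl_union]
      exact sub_inter (by rw [map_sub]; exact sub_mem h3.2 (bd_mem h₃))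
        (e3 ▸ add_mem g3.2 (bd_mem h₄))
    · rintro x (hx | hx) c hc
      · refine (h4 x hx c hc).imp_right fun h => ?_
        convert add_mem h (RB_mono (singleton_subset_iff.2 hx) (sub_RB h₃)) using 1; abel
      · refine (g4 x hx c hc).imp_right fun h => ?_
        convert sub_mem (sub_mem (sub_mem h (Bd_RB hu2)) (Bd_RB h₅))
          (RB_mono (singleton_subset_iff.2 hx) (sub_RB h₄)) using 1; abel
  · intro x _
    obtain ⟨e, hx, he⟩ := hX x
    by_cases h : ∀ c ∈ RC R {x} n, c ∈ RB R {x} n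
    · obtain ⟨L, h1, h2, h3, h4⟩ := exists_good (R := R) he hx (k := n) (c := 0)
        ⟨zero_mem _, by simp⟩
      refine ⟨_, mem_nhdsWithin_of_mem_nhds h3, _, h2.image (symm_cont he), Subset.rfl, 0, h4,
        fun y hy c hc => Or.inl ?_⟩
      obtain ⟨c', h5, h6⟩ := cv2 he h1 h2 hy hc
      have hx' := mem_of_mem_nhds h3
      simpa using add_mem h6 (RB_mono (singleton_subset_iff.2 hy)
        (cv1 he h1 h2 hx' h5 (h _ (RC_mono (singleton_subset_iff.2 hx') h5))))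
    · push Not at h
      obtain ⟨g, hg, hg'⟩ := h
      obtain ⟨L, h1, h2, h3, h4⟩ := exists_good he hx hg
      refine ⟨_, mem_nhdsWithin_of_mem_nhds h3, _, h2.image (symm_cont he), Subset.rfl, g, h4,
        fun y hy c hc => ?_⟩
      rcases loc he hQ ((mem_img he).1 hy).1 le_rfl c hc g
        (RC_mono (singleton_subset_iff.2 hy) h4) with h | ⟨-, h | h⟩
      · exact Or.inl h
      · exact (hg' (RB_mono (singleton_subset_iff.2 (mem_of_mem_nhds h3))
          (cv1 he h1 h2 hy h4 h))).elim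
      · exact Or.inr h

/-- In a closed `n`-manifold, an open set with connected complement injects in homology in
degrees at least `n - 1` (chains with at least `n` vertices). -/
theorem inj_of_compl [CompactSpace X] (hn : n ≠ 0) {U : Set X} (hU : IsOpen U)
    (hc : IsPreconnected Uᶜ) {k : ℕ} (hk : n ≤ k) {z : Ch R X} (hz : z ∈ sub R U k)
    (hb : z ∈ Bd R univ k) : z ∈ Bd R U k := by
  obtain ⟨c, h1, rfl⟩ := hb
  have key : ∀ c' ∈ sub R univ (k + 1), bd c' = bd c → (∀ x ∈ Uᶜ, c' ∈ RB R {x} k) →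
      bd c ∈ Bd R U k := by
    intro c' h2 h3 h4
    obtain ⟨a, ha, hb⟩ := RB_iff.1 (PP_all hQ hX hU.isClosed_compl.isCompact k hk c'
      ⟨h2, by rwa [h3, compl_compl]⟩ h4)
    refine ⟨a, by rwa [compl_compl] at ha, ?_⟩
    have := bd_Bd hb
    rw [map_sub, h3] at this
    linear_combination (norm := abel) -this
  have hR : ∀ x ∈ Uᶜ, c ∈ RC R {x} k := fun x hx =>
    ⟨h1, sub_mono (subset_compl_singleton_iff.2 hx) hz⟩
  rcases hk.lt_or_eq with hk | rfl
  · exact key c h1 rfl fun x hx => loc_high hQ hX hk (hR x hx)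
  obtain ⟨K₀, -, h2, μ, h3, h4⟩ := exists_gen hQ hX isCompact_univ
  have h5 : bd μ = 0 := by
    obtain ⟨m, rfl⟩ := Nat.exists_eq_succ_of_ne_zero hn
    exact sub_empty (by simpa using (RC_mono h2 h3).2)
  have lc : ∀ x ∈ Uᶜ, ∀ᶠ y in 𝓝 x, (c ∈ RB R {y} n ↔ c ∈ RB R {x} n) := by
    intro x hx
    obtain ⟨e, hx', he⟩ := hX x
    obtain ⟨L, g1, g2, g3, g4⟩ := exists_good he hx' (hR x hx)
    filter_upwards [g3] with y hy
    exact ⟨fun h => RB_mono (singleton_subset_iff.2 (mem_of_mem_nhds g3)) (cv1 he g1 g2 hy g4 h),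
      fun h => RB_mono (singleton_subset_iff.2 hy) (cv1 he g1 g2 (mem_of_mem_nhds g3) g4 h)⟩
  by_cases h6 : ∃ x ∈ Uᶜ, c ∈ RB R {x} n
  · obtain ⟨x, hx, h6⟩ := h6
    refine key c h1 rfl fun y hy => ?_
    exact hc.induction₂' (fun x y => c ∈ RB R {x} n → c ∈ RB R {y} n) (fun x hx =>
      ((lc x hx).mono fun y hy => ⟨hy.2, hy.1⟩).filter_mono nhdsWithin_le_nhds)
      (fun _ _ _ _ _ _ h h' hc => h' (h hc)) hx hy h6
  · push Not at h6
    exact key (c - μ) (sub_mem h1 h3.1) (by rw [map_sub, h5, sub_zero]) fun x hx =>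
      (h4 x (h2 trivial) c (hR x hx)).resolve_left (h6 x hx)

end mfd

end Pool.Agent.Lib.Helper83
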