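import Pool.Agent.Lib.Helper83.Aff

/-! Singular chains (augmented, graded by the number of vertices), subdivision, prisms. -/

open Set Finsupp

namespace Pool.Agent.Lib.Helper83

/-- The standard simplex with `k` vertices. -/
abbrev Dl (k : ℕ) := stdSimplex ℝ (Fin k)

/-- Singular simplices. -/
abbrev Sx (X : Type) [TopologicalSpace X] := Σ k : ℕ, C(Dl k, X)

/-- Singular chains. -/
abbrev Ch (R X : Type) [CommRing R] [TopologicalSpace X] := Sx X →₀ R

variable {R : Type} [CommRing R] {X Y Z : Type} [TopologicalSpace X] [TopologicalSpace Y]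
  [TopologicalSpace Z]

/-- Face inclusion. -/
noncomputable def face {k : ℕ} (i : Fin (k + 1)) : C(Dl k, Dl (k + 1)) :=
  ⟨stdSimplex.map i.succAbove, stdSimplex.continuous_map _⟩

/-- A singular simplex as a chain. -/
noncomputable def sx (R : Type) [CommRing R] {k : ℕ} (s : C(Dl k, X)) : Ch R X := single ⟨k, s⟩ 1

noncomputable def bd0 (R : Type) [CommRing R] : Sx X → Ch R X
  | ⟨0, _⟩ => 0
  | ⟨k + 1, s⟩ => ∑ i : Fin (k + 1), (-1 : R) ^ (i : ℕ) • sx R (s.comp (face i))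

/-- The boundary operator. -/
noncomputable def bd : Ch R X →ₗ[R] Ch R X := linearCombination R (bd0 R)

@[simp] lemma bd_zero (s : C(Dl 0, X)) : bd (sx R s) = 0 := by simp [bd, sx, bd0]

lemma bd_succ {k : ℕ} (s : C(Dl (k + 1), X)) :
    bd (sx R s) = ∑ i : Fin (k + 1), (-1 : R) ^ (i : ℕ) • sx R (s.comp (face i)) := by
  simp [bd, sx, bd0]

/-- Chains of simplices with `k` vertices inside `S`. -/
noncomputable def sub (R : Type) [CommRing R] (S : Set X) (k : ℕ) : Submodule R (Ch R X) :=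
  supported R R {a | a.1 = k ∧ ∀ t, a.2 t ∈ S}

lemma sx_mem {S : Set X} {k : ℕ} {s : C(Dl k, X)} (h : ∀ t, s t ∈ S) : sx R s ∈ sub R S k :=
  single_mem_supported R 1 ⟨rfl, h⟩

lemma sub_ind {M : Type} [AddCommGroup M] [Module R M] {S : Set X} {k : ℕ} {N : Submodule R M}
    (T : Ch R X →ₗ[R] M) (h : ∀ s : C(Dl k, X), (∀ t, s t ∈ S) → T (sx R s) ∈ N) {c : Ch R X}
    (hc : c ∈ sub R S k) : T c ∈ N := by
  refine supp_mem T ?_ hc
  rintro ⟨_, v⟩ ⟨rfl, hv⟩
  exact h v hv

lemma sub_eq {M : Type} [AddCommGroup M] [Module R M] {S : Set X} {k : ℕ}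
    (T T' : Ch R X →ₗ[R] M) (h : ∀ s : C(Dl k, X), (∀ t, s t ∈ S) → T (sx R s) = T' (sx R s))
    {c : Ch R X} (hc : c ∈ sub R S k) : T c = T' c := by
  refine supp_eq T T' ?_ hc
  rintro ⟨_, v⟩ ⟨rfl, hv⟩
  exact h v hv

lemma sub_mono {S S' : Set X} (h : S ⊆ S') {k : ℕ} {c : Ch R X} (hc : c ∈ sub R S k) :
    c ∈ sub R S' k := sub_ind LinearMap.id (fun _ hv => sx_mem fun i => h (hv i)) hc

lemma sub_inter {S S' : Set X} {k : ℕ} {c : Ch R X} (hc : c ∈ sub R S k) (hc' : c ∈ sub R S' k) :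
    c ∈ sub R (S ∩ S') k := fun _ ha => ⟨(hc ha).1, fun t => ⟨(hc ha).2 t, (hc' ha).2 t⟩⟩

lemma sub_empty {k : ℕ} {c : Ch R X} (hc : c ∈ sub R ∅ (k + 1)) : c = 0 :=
  sub_eq LinearMap.id 0 (fun _ hs => (hs (stdSimplex.vertex 0)).elim) hc

lemma bd_mem {S : Set X} {k : ℕ} {c : Ch R X} (hc : c ∈ sub R S (k + 1)) : bd c ∈ sub R S k :=
  sub_ind bd (fun s hs => by
    rw [bd_succ]
    exact Submodule.sum_mem _ fun i _ => Submodule.smul_mem _ _ (sx_mem fun j => hs _)) hc

lemma bd_mem' {S : Set X} {k : ℕ} {c : Ch R X} (hc : c ∈ sub R S k) : bd c ∈ sub R S (k - 1) := by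
  cases k with
  | zero => exact sub_ind bd (fun s _ => by simp) hc
  | succ k => exact bd_mem hc

/-- A chain lies in a compact set. -/
lemma exists_compact {S : Set X} {k : ℕ} {c : Ch R X} (hc : c ∈ sub R S k) :
    ∃ K, IsCompact K ∧ K ⊆ S ∧ c ∈ sub R K k := by
  refine ⟨⋃ a ∈ c.support, range a.2, c.support.isCompact_biUnion fun a _ =>
    isCompact_range a.2.continuous, ?_, fun a ha => ⟨(hc ha).1, fun t => ?_⟩⟩
  · simp only [iUnion_subset_iff]
    rintro a ha _ ⟨t, rfl⟩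
    exact (hc ha).2 t
  · exact mem_biUnion ha ⟨t, rfl⟩

open Classical in
/-- Image of a chain under a map, dropping simplices whose image is not continuous. -/
noncomputable def push (g : X → Y) : Ch R X →ₗ[R] Ch R Y :=
  linearCombination R fun a => if h : Continuous (g ∘ a.2) then sx R ⟨g ∘ a.2, h⟩ else 0

lemma push_sx (g : X → Y) {k : ℕ} (s : C(Dl k, X)) (h : Continuous (g ∘ s)) :
    push g (sx R s) = sx R ⟨g ∘ s, h⟩ := by
  simp only [push, sx, linearCombination_single, one_smul]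
  exact dif_pos h

lemma push_sx_eq (g : X → Y) {k : ℕ} (s : C(Dl k, X)) (s' : C(Dl k, Y)) (h : ∀ t, g (s t) = s' t) :
    push g (sx R s) = sx R s' := by
  have e : g ∘ s = s' := funext h
  rw [push_sx g s (e ▸ s'.continuous)]
  congr 1; ext t; exact h t

lemma cont_of {g : X → Y} {S : Set X} (hg : ContinuousOn g S) {k : ℕ} {s : C(Dl k, X)}
    (hs : ∀ t, s t ∈ S) : Continuous (g ∘ s) := hg.comp_continuous s.continuous hs

lemma bd_push {g : X → Y} {S : Set X} (hg : ContinuousOn g S) {k : ℕ} {c : Ch R X}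
    (hc : c ∈ sub R S k) : bd (push g c) = push g (bd c) := by
  refine sub_eq (bd ∘ₗ push g) (push g ∘ₗ bd) (fun s hs => ?_) hc
  simp only [LinearMap.comp_apply, push_sx g s (cont_of hg hs)]
  cases k with
  | zero => simp
  | succ k =>
    simp only [bd_succ, map_sum, map_smul]
    refine Finset.sum_congr rfl fun i _ => ?_
    rw [push_sx_eq]; intro t; rfl

lemma push_mem {g : X → Y} {S : Set X} {S' : Set Y} (hg : MapsTo g S S') {k : ℕ} {c : Ch R X}
    (hc : c ∈ sub R S k) : push g c ∈ sub R S' k := by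
  refine sub_ind (push g) (fun s hs => ?_) hc
  by_cases h : Continuous (g ∘ s)
  · rw [push_sx g s h]; exact sx_mem fun t => hg (hs t)
  · simp only [push, sx, linearCombination_single, one_smul]
    rw [dif_neg h]; exact zero_mem _

lemma push_congr {g g' : X → Y} {S : Set X} (hg : EqOn g g' S) {k : ℕ} {c : Ch R X}
    (hc : c ∈ sub R S k) : push g c = push g' c := by
  refine sub_eq (push g) (push g') (fun s hs => ?_) hc
  have e : g ∘ s = g' ∘ s := funext fun t => hg (hs t)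
  simp only [push, sx, linearCombination_single, one_smul]
  exact congrArg (fun f : Dl k → Y => open Classical in
    if h : Continuous f then single (⟨k, ⟨f, h⟩⟩ : Sx Y) (1 : R) else 0) e

lemma push_push {g : X → Y} (g' : Y → Z) {S : Set X} (hg : ContinuousOn g S) {k : ℕ} {c : Ch R X}
    (hc : c ∈ sub R S k) : push g' (push g c) = push (g' ∘ g) c := by
  refine sub_eq (push g' ∘ₗ push g) (push (g' ∘ g)) (fun s hs => ?_) hc
  rw [LinearMap.comp_apply, push_sx g s (cont_of hg hs)]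
  simp only [push, sx, linearCombination_single, one_smul]
  rfl

lemma push_id (c : Ch R X) : push id c = c :=
  all_eq (push id) LinearMap.id (fun a => push_sx_eq id a.2 a.2 fun _ => rfl) c

lemma push_eq_self {g : X → X} {S : Set X} (hg : ∀ x ∈ S, g x = x) {k : ℕ} {c : Ch R X}
    (hc : c ∈ sub R S k) : push g c = c := (push_congr hg hc).trans (push_id c)

section aff
variable {E F : Type} [NormedAddCommGroup E] [NormedSpace ℝ E] [NormedAddCommGroup F]
  [NormedSpace ℝ F]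

/-- The linear map sending the basis to given vertices. -/
noncomputable def lin {k : ℕ} (v : Fin k → E) : (Fin k → ℝ) →ₗ[ℝ] E := Fintype.linearCombination ℝ v

lemma lin_apply {k : ℕ} (v : Fin k → E) (t : Fin k → ℝ) : lin v t = ∑ i, t i • v i := rfl

lemma lin_cont {k : ℕ} (v : Fin k → E) : Continuous (lin v) :=
  LinearMap.continuous_of_finiteDimensional _

/-- The affine singular simplex with given vertices. -/
noncomputable def aff {k : ℕ} (v : Fin k → E) : C(Dl k, E) :=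
  ⟨fun t => lin v t.1, (lin_cont v).comp continuous_subtype_val⟩

/-- Realisation of formal chains. -/
noncomputable def affL : LC R E →ₗ[R] Ch R E := lmapDomain R R fun a => ⟨a.1, aff a.2⟩

@[simp] lemma affL_ax {k : ℕ} (v : Fin k → E) : affL (ax R v) = sx R (aff v) := by
  simp [affL, ax, sx]

lemma aff_face {k : ℕ} (v : Fin (k + 1) → E) (i : Fin (k + 1)) :
    (aff v).comp (face i) = aff (v ∘ i.succAbove) := by
  ext t
  have : lin v ∘ₗ FunOnFinite.linearMap ℝ ℝ i.succAbove = lin (v ∘ i.succAbove) := by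
    refine (Pi.basisFun ℝ (Fin k)).ext fun j => ?_
    simp [lin]
  exact LinearMap.congr_fun this t.1

lemma bd_affL (c : LC R E) : bd (affL c) = affL (abd c) := by
  refine all_eq (bd ∘ₗ affL) (affL ∘ₗ abd) ?_ c
  rintro ⟨k, v⟩
  show bd (affL (ax R v)) = affL (abd (ax R v))
  cases k with
  | zero => simp
  | succ k => simp [bd_succ, abd_succ, aff_face]

lemma aff_mem {K : Set E} (hK : Convex ℝ K) {k : ℕ} {v : Fin k → E} (hv : ∀ i, v i ∈ K)
    (t : Dl k) : aff v t ∈ K :=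
  hK.sum_mem (fun i _ => t.2.1 i) t.2.2 fun i _ => hv i

lemma affL_mem {K : Set E} (hK : Convex ℝ K) {k : ℕ} {c : LC R E} (hc : c ∈ lsub R K k) :
    affL c ∈ sub R K k :=
  lsub_mem affL (fun v hv => by rw [affL_ax]; exact sx_mem (aff_mem hK hv)) hc

/-- Maps commuting with affine combinations. -/
def IsAff (φ : E → F) : Prop := ∀ k (v : Fin k → E) (t : Dl k), φ (aff v t) = aff (φ ∘ v) t

lemma IsAff.push {φ : E → F} (h : IsAff φ) (c : LC R E) :
    push φ (affL c) = affL (amap φ c) := by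
  refine all_eq (Helper83.push φ ∘ₗ affL) (affL ∘ₗ amap φ) ?_ c
  rintro ⟨k, v⟩
  show Helper83.push φ (affL (ax R v)) = affL (amap φ (ax R v))
  rw [affL_ax, amap_ax, affL_ax]
  exact push_sx_eq _ _ _ (h k v)

lemma isAff_lin (φ : E →ₗ[ℝ] F) : IsAff φ := fun k v t => by
  show φ (lin v t.1) = lin _ t.1
  simp [lin_apply]

lemma isAff_const (p : F) : IsAff fun _ : E => p := fun k v t => by
  show p = ∑ i, t.1 i • p
  rw [← Finset.sum_smul, t.2.2, one_smul]

lemma IsAff.prod {G : Type} [NormedAddCommGroup G] [NormedSpace ℝ G] {φ : E → F} {ψ : E → G}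
    (h : IsAff φ) (h' : IsAff ψ) : IsAff fun x => (φ x, ψ x) := fun k v t => by
  show (φ _, ψ _) = _
  rw [h, h']
  show (lin _ t.1, lin _ t.1) = lin _ t.1
  ext <;> simp [lin_apply, Prod.fst_sum, Prod.snd_sum]

end aff

/-- The vertices of the standard simplex. -/
noncomputable def ee (k : ℕ) : Fin k → Fin k → ℝ := fun i => Pi.single i 1

lemma ee_mem (k : ℕ) : ax R (ee k) ∈ lsub R (stdSimplex ℝ (Fin k)) k :=
  ax_mem fun i => single_mem_stdSimplex ℝ i

lemma lin_ee (k : ℕ) (t : Fin k → ℝ) : lin (ee k) t = t := by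
  ext j; simp [lin_apply, ee, Pi.single_apply]

lemma lin_comp_ee {E : Type} [NormedAddCommGroup E] [NormedSpace ℝ E] {k : ℕ} (v : Fin k → E) :
    lin v ∘ ee k = v := by
  ext j; simp [lin, ee]

variable [Nonempty X]

/-- A singular simplex extended to the ambient space. -/
noncomputable def ext {k : ℕ} (s : C(Dl k, X)) : (Fin k → ℝ) → X :=
  Function.extend Subtype.val s fun _ => Classical.arbitrary X

lemma ext_val {k : ℕ} (s : C(Dl k, X)) (t : Dl k) : ext s t.1 = s t :=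
  Subtype.val_injective.extend_apply _ _ t

lemma ext_cont {k : ℕ} (s : C(Dl k, X)) : ContinuousOn (ext s) (stdSimplex ℝ (Fin k)) := by
  rw [continuousOn_iff_continuous_domRestrict]
  exact s.continuous.congr fun t => (ext_val s t).symm

lemma ext_maps {k : ℕ} {s : C(Dl k, X)} {S : Set X} (hs : ∀ t, s t ∈ S) :
    MapsTo (ext s) (stdSimplex ℝ (Fin k)) S := fun t ht => by
  rw [ext_val s ⟨t, ht⟩]; exact hs _

lemma push_ext {k : ℕ} (s : C(Dl k, X)) : push (ext s) (affL (ax R (ee k))) = sx R s := by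
  rw [affL_ax]
  refine push_sx_eq _ _ _ fun t => ?_
  show ext s (lin (ee k) t.1) = _
  rw [lin_ee, ext_val]

lemma abd_mem' {E : Type} {K : Set E} {k : ℕ} {c : LC R E} (hc : c ∈ lsub R K k) :
    abd c ∈ lsub R K (k - 1) := by
  cases k with
  | zero => exact lsub_mem abd (fun s _ => by simp) hc
  | succ k => exact abd_mem hc

lemma bd_sx {k : ℕ} (s : C(Dl k, X)) :
    bd (sx R s) = push (ext s) (affL (abd (ax R (ee k)))) := by
  rw [← push_ext, bd_push (ext_cont s) (affL_mem (convex_stdSimplex _ _) (ee_mem k)), bd_affL]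

@[simp] lemma bd_bd (c : Ch R X) : bd (bd c) = 0 := by
  refine all_eq (bd ∘ₗ bd) 0 ?_ c
  rintro ⟨k, s⟩
  show bd (bd (sx R s)) = 0
  rw [bd_sx, bd_push (ext_cont s) (affL_mem (convex_stdSimplex _ _) (abd_mem' (ee_mem k))),
    bd_affL, abd_abd]
  simp

/-- A natural operator on formal chains raising the degree by `d`. -/
structure NatOp (R : Type) [CommRing R] (d : ℕ) where
  T : ∀ n, LC R (Fin n → ℝ) →ₗ[R] LC R ((Fin n → ℝ) × ℝ)
  nat : ∀ n m (φ : (Fin n → ℝ) →ₗ[ℝ] (Fin m → ℝ)) c,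
    amap (Prod.map φ id) (T n c) = T m (amap φ c)
  mem : ∀ n (K : Set (Fin n → ℝ)), Convex ℝ K → ∀ k c, c ∈ lsub R K k →
    T n c ∈ lsub R (K ×ˢ Icc (0 : ℝ) 1) (k + d)

namespace NatOp
variable {d : ℕ} (N : NatOp R d) (H : X × ℝ → Y)

/-- The induced operator on singular chains. -/
noncomputable def op : Ch R X →ₗ[R] Ch R Y :=
  linearCombination R fun a => push (H ∘ Prod.map (ext a.2) id) (affL (N.T a.1 (ax R (ee a.1))))

lemma op_sx {k : ℕ} (s : C(Dl k, X)) :
    N.op H (sx R s) = push (H ∘ Prod.map (ext s) id) (affL (N.T k (ax R (ee k)))) := by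
  simp [op, sx]

omit [Nonempty X] in
lemma model_mem (k : ℕ) : affL (N.T k (ax R (ee k))) ∈
    sub R (stdSimplex ℝ (Fin k) ×ˢ Icc (0 : ℝ) 1) (k + d) :=
  affL_mem ((convex_stdSimplex _ _).prod (convex_Icc _ _))
    (N.mem k _ (convex_stdSimplex _ _) _ _ (ee_mem k))

lemma op_real {n : ℕ} {g : (Fin n → ℝ) → X} {K : Set (Fin n → ℝ)} (hK : Convex ℝ K)
    (hg : ContinuousOn g K) {k : ℕ} {c : LC R (Fin n → ℝ)} (hc : c ∈ lsub R K k) :
    N.op H (push g (affL c)) = push (H ∘ Prod.map g id) (affL (N.T n c)) := by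
  refine lsub_eq (N.op H ∘ₗ push g ∘ₗ affL) (push (H ∘ Prod.map g id) ∘ₗ affL ∘ₗ N.T n)
    (fun v hv => ?_) hc
  simp only [LinearMap.comp_apply]
  rw [affL_ax, push_sx g _ (cont_of hg (aff_mem hK hv)), op_sx]
  conv_rhs => rw [← lin_comp_ee v, ← amap_ax, ← N.nat]
  have h := (isAff_lin ((lin v).prodMap LinearMap.id)).push (N.T k (ax R (ee k)))
  simp only [LinearMap.coe_prodMap, LinearMap.id_coe] at h
  rw [← h, push_push _ (((lin_cont v).prodMap continuous_id).continuousOn) (N.model_mem k)]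
  refine push_congr (fun p hp => ?_) (N.model_mem k)
  simp only [Function.comp_apply, Prod.map]
  rw [ext_val _ ⟨p.1, hp.1⟩]; rfl

lemma op_mem {S : Set X} {S' : Set Y} (hH : MapsTo H (S ×ˢ Icc (0 : ℝ) 1) S') {k : ℕ}
    {c : Ch R X} (hc : c ∈ sub R S k) : N.op H c ∈ sub R S' (k + d) :=
  sub_ind (N.op H) (fun s hs => by
    rw [op_sx]
    exact push_mem (fun p hp => hH ⟨ext_maps hs hp.1, hp.2⟩) (N.model_mem k)) hc

lemma op_bd {k : ℕ} (s : C(Dl k, X)) : N.op H (bd (sx R s)) =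
    push (H ∘ Prod.map (ext s) id) (affL (N.T k (abd (ax R (ee k))))) := by
  rw [bd_sx, N.op_real H (convex_stdSimplex _ _) (ext_cont s) (abd_mem' (ee_mem k))]

lemma bd_op {S : Set X} (hH : ContinuousOn H (S ×ˢ Icc (0 : ℝ) 1)) {k : ℕ} {s : C(Dl k, X)}
    (hs : ∀ t, s t ∈ S) : bd (N.op H (sx R s)) =
    push (H ∘ Prod.map (ext s) id) (affL (abd (N.T k (ax R (ee k))))) := by
  rw [op_sx, bd_push (hH.comp ((ext_cont s).prodMap continuousOn_id)
    fun p hp => ⟨ext_maps hs hp.1, hp.2⟩) (N.model_mem k), bd_affL]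

end NatOp

/-- Level zero of a natural operator without the extra coordinate. -/
noncomputable def lev0 {d : ℕ} (T : ∀ n, LC R (Fin n → ℝ) →ₗ[R] LC R (Fin n → ℝ))
    (nat : ∀ n m (φ : (Fin n → ℝ) →ₗ[ℝ] (Fin m → ℝ)) c, amap φ (T n c) = T m (amap φ c))
    (mem : ∀ n (K : Set (Fin n → ℝ)), Convex ℝ K → ∀ k c, c ∈ lsub R K k →
      T n c ∈ lsub R K (k + d)) : NatOp R d where
  T n := amap (fun x => (x, 0)) ∘ₗ T n
  nat n m φ c := by
    simp only [LinearMap.comp_apply, ← nat, amap_amap]; rfl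
  mem n K hK k c hc := amap_mem (fun _ hx => mk_mem_prod hx (by simp)) (mem n K hK k c hc)

noncomputable def nSd : NatOp R 0 :=
  lev0 (fun _ => sd) (fun _ _ => sd_nat) fun _ _ hK _ _ => sd_mem hK

noncomputable def nSdh : NatOp R 1 :=
  lev0 (fun _ => sdh) (fun _ _ => sdh_nat) fun _ _ hK _ _ => sdh_mem hK

noncomputable def nPri : NatOp R 1 :=
  ⟨fun _ => pri, fun _ _ φ => pri_nat φ, fun _ _ _ _ _ => pri_mem⟩

/-- Barycentric subdivision of singular chains. -/
noncomputable def Sd : Module.End R (Ch R X) := nSd.op Prod.fst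

/-- Homotopy from the subdivision to the identity. -/
noncomputable def Sdh : Module.End R (Ch R X) := nSdh.op Prod.fst

/-- The prism operator of a homotopy. -/
noncomputable def Pri (H : X × ℝ → Y) : Ch R X →ₗ[R] Ch R Y := nPri.op H

omit [Nonempty X] in
lemma push_lev {n : ℕ} (G : (Fin n → ℝ) × ℝ → X) (r : ℝ) (c : LC R (Fin n → ℝ)) :
    push G (affL (amap (fun x => (x, r)) c)) = push (fun x => G (x, r)) (affL c) := by
  have h : IsAff fun x : Fin n → ℝ => (x, r) := (isAff_lin LinearMap.id).prod (isAff_const r)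
  refine all_eq (push G ∘ₗ affL ∘ₗ amap _) (push _ ∘ₗ affL) ?_ c
  rintro ⟨k, v⟩
  show push G (affL (amap _ (ax R v))) = push _ (affL (ax R v))
  rw [← h.push, push_push G (S := univ) (by fun_prop)
    (affL_mem convex_univ (ax_mem fun _ => mem_univ _))]
  rfl

lemma Sd_mem {S : Set X} {k : ℕ} {c : Ch R X} (hc : c ∈ sub R S k) : Sd c ∈ sub R S k :=
  nSd.op_mem _ (fun _ hp => hp.1) hc

lemma Sdh_mem {S : Set X} {k : ℕ} {c : Ch R X} (hc : c ∈ sub R S k) : Sdh c ∈ sub R S (k + 1) :=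
  nSdh.op_mem _ (fun _ hp => hp.1) hc

lemma Pri_mem {H : X × ℝ → Y} {S : Set X} {S' : Set Y} (hH : MapsTo H (S ×ˢ Icc (0 : ℝ) 1) S')
    {k : ℕ} {c : Ch R X} (hc : c ∈ sub R S k) : Pri H c ∈ sub R S' (k + 1) :=
  nPri.op_mem _ hH hc

lemma Sd_real {n : ℕ} {g : (Fin n → ℝ) → X} {K : Set (Fin n → ℝ)} (hK : Convex ℝ K)
    (hg : ContinuousOn g K) {k : ℕ} {c : LC R (Fin n → ℝ)} (hc : c ∈ lsub R K k) :
    Sd (push g (affL c)) = push g (affL (sd c)) :=
  (nSd.op_real _ hK hg hc).trans (push_lev _ _ _)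

lemma bd_Sd (c : Ch R X) : bd (Sd c) = Sd (bd c) := by
  refine all_eq (bd ∘ₗ Sd) (Sd ∘ₗ bd) ?_ c
  rintro ⟨k, s⟩
  show bd (nSd.op _ (sx R s)) = nSd.op _ (bd (sx R s))
  rw [nSd.bd_op (S := univ) _ continuousOn_fst (fun _ => mem_univ _), nSd.op_bd]
  show push _ (affL (abd (amap _ (sd _)))) = push _ (affL (amap _ (sd _)))
  rw [abd_amap, abd_sd]

lemma bd_Sdh (c : Ch R X) : bd (Sdh c) + Sdh (bd c) = c - Sd c := by
  refine all_eq (bd ∘ₗ Sdh + Sdh ∘ₗ bd) (LinearMap.id - Sd) ?_ c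
  rintro ⟨k, s⟩
  show bd (nSdh.op _ (sx R s)) + nSdh.op _ (bd (sx R s)) = sx R s - nSd.op _ (sx R s)
  rw [nSdh.bd_op (S := univ) _ continuousOn_fst (fun _ => mem_univ _), nSdh.op_bd, nSd.op_sx]
  show push _ (affL (abd (amap _ (sdh _)))) + push _ (affL (amap _ (sdh _))) =
    _ - push _ (affL (amap _ (sd _)))
  rw [abd_amap, ← map_add, ← map_add, ← map_add, abd_sdh, map_sub, map_sub, map_sub, push_lev]
  congr 1
  exact push_ext s

lemma bd_Pri {H : X × ℝ → Y} {S : Set X} (hH : ContinuousOn H (S ×ˢ Icc (0 : ℝ) 1)) {k : ℕ}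
    {c : Ch R X} (hc : c ∈ sub R S k) : bd (Pri H c) + Pri H (bd c) =
      push (fun x => H (x, 1)) c - push (fun x => H (x, 0)) c := by
  refine sub_eq (bd ∘ₗ Pri H + Pri H ∘ₗ bd) (push _ - push _) (fun s hs => ?_) hc
  show bd (nPri.op _ (sx R s)) + nPri.op _ (bd (sx R s)) = push _ (sx R s) - push _ (sx R s)
  rw [nPri.bd_op _ hH hs, nPri.op_bd]
  show push _ (affL (abd (pri _))) + push _ (affL (pri _)) = _
  rw [← map_add, ← map_add, abd_pri, map_sub, map_sub, push_lev, push_lev, ← push_ext s,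
    push_push _ (ext_cont s) (affL_mem (convex_stdSimplex _ _) (ee_mem k)),
    push_push _ (ext_cont s) (affL_mem (convex_stdSimplex _ _) (ee_mem k))]
  rfl

end Pool.Agent.Lib.Helper83
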