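import Pool.Agent.Lib.Helper83.Sing

/-! Small chains, splitting along open covers, deformations, acyclicity. -/

open Set Finsupp Filter

namespace Pool.Agent.Lib.Helper83

variable {R : Type} [CommRing R] {X Y : Type} [TopologicalSpace X] [TopologicalSpace Y]

/-- Boundaries of chains in `S`. -/
noncomputable def Bd (R : Type) [CommRing R] (S : Set X) (k : ℕ) : Submodule R (Ch R X) :=
  (sub R S (k + 1)).map bd

lemma bd_mem_Bd {S : Set X} {k : ℕ} {c : Ch R X} (hc : c ∈ sub R S (k + 1)) : bd c ∈ Bd R S k :=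
  ⟨c, hc, rfl⟩

lemma Bd_mono {S S' : Set X} (h : S ⊆ S') {k : ℕ} {c : Ch R X} (hc : c ∈ Bd R S k) :
    c ∈ Bd R S' k := by
  obtain ⟨e, he, rfl⟩ := hc
  exact bd_mem_Bd (sub_mono h he)

lemma push_Bd {g : X → Y} {S : Set X} {S' : Set Y} (hg : ContinuousOn g S) (hm : MapsTo g S S')
    {k : ℕ} {c : Ch R X} (hc : c ∈ Bd R S k) : push g c ∈ Bd R S' k := by
  obtain ⟨e, he, rfl⟩ := hc
  rw [← bd_push hg he]
  exact bd_mem_Bd (push_mem hm he)

/-- Chains of simplices in `S`, each inside one of the sets `N i`. -/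
noncomputable def small (R : Type) [CommRing R] (S : Set X) {ι : Type} (N : ι → Set X) (k : ℕ) :
    Submodule R (Ch R X) := supported R R {a | a.1 = k ∧ ∃ i, ∀ t, a.2 t ∈ S ∩ N i}

section small
variable {S : Set X} {ι : Type} {N : ι → Set X} {k : ℕ} {c : Ch R X}

lemma sub_small (i : ι) (hc : c ∈ sub R (S ∩ N i) k) : c ∈ small R S N k :=
  fun _ ha => ⟨(hc ha).1, i, (hc ha).2⟩

lemma small_ind {M : Type} [AddCommGroup M] [Module R M] {P : Submodule R M}
    (T : Ch R X →ₗ[R] M) (h : ∀ i c, c ∈ sub R (S ∩ N i) k → T c ∈ P)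
    (hc : c ∈ small R S N k) : T c ∈ P := by
  refine supp_mem T ?_ hc
  rintro ⟨_, v⟩ ⟨rfl, i, hv⟩
  exact h i _ (sx_mem hv)

variable [Nonempty X]

lemma Sd_pow_mem (hc : c ∈ sub R S k) (m : ℕ) : (Sd ^ m) c ∈ sub R S k := by
  induction m with
  | zero => simpa using hc
  | succ m ih => rw [pow_succ', Module.End.mul_apply]; exact Sd_mem ih

lemma bd_Sd_pow (c : Ch R X) (m : ℕ) : bd ((Sd ^ m) c) = (Sd ^ m) (bd c) := by
  induction m with
  | zero => simp
  | succ m ih => simp only [pow_succ', Module.End.mul_apply, bd_Sd, ih]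

lemma exists_htpy (m : ℕ) : ∃ T : Module.End R (Ch R X),
    (∀ c, c = (Sd ^ m) c + bd (T c) + T (bd c)) ∧
    ∀ S k c, c ∈ sub R S k → T c ∈ sub R S (k + 1) := by
  induction m with
  | zero => exact ⟨0, by simp, by simp⟩
  | succ m ih =>
    obtain ⟨T, h1, h2⟩ := ih
    refine ⟨T + Sdh * Sd ^ m, fun c => ?_, fun S k c hc =>
      add_mem (h2 S k c hc) (Sdh_mem (Sd_pow_mem hc m))⟩
    have h3 := bd_Sdh ((Sd ^ m) c)
    rw [bd_Sd_pow] at h3
    simp only [pow_succ', Module.End.mul_apply, LinearMap.add_apply, map_add]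
    linear_combination (norm := abel) h1 c - h3

lemma eventually_small [Nonempty ι] (hN : ∀ i, IsOpen (N i)) (cov : S ⊆ ⋃ i, N i)
    (hc : c ∈ sub R S k) : ∀ᶠ m in atTop, (Sd ^ m) c ∈ small R S N k := by
  let P : Submodule R (Ch R X) :=
    { carrier := {c | ∀ᶠ m in atTop, (Sd ^ m) c ∈ small R S N k}
      add_mem' := fun ha hb => (ha.and hb).mono fun m h => by
        rw [map_add]; exact add_mem h.1 h.2
      zero_mem' := Eventually.of_forall fun m => by rw [map_zero]; exact zero_mem _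
      smul_mem' := fun r _ ha => ha.mono fun m h => by
        rw [map_smul]; exact Submodule.smul_mem _ _ h }
  refine sub_ind (N := P) LinearMap.id (fun s hs => ?_) hc
  obtain ⟨δ, hδ, hl⟩ := lebesgue_number_lemma_of_metric (s := (univ : Set (Dl k)))
    (c := fun i => s ⁻¹' N i) isCompact_univ (fun i => (hN i).preimage s.continuous)
    (fun t _ => by simpa using cov (hs t))
  have h0 : ax R (ee k) ∈ dsub R (stdSimplex ℝ (Fin k)) k 1 :=
    single_mem_supported R 1 ⟨rfl, fun i => single_mem_stdSimplex ℝ i, fun i j =>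
      (Metric.dist_le_diam_of_mem (bounded_stdSimplex _) (single_mem_stdSimplex ℝ i)
        (single_mem_stdSimplex ℝ j)).trans diam_stdSimplex_le⟩
  have hq : Tendsto (fun m : ℕ => ((k : ℝ) / (k + 1)) ^ m) atTop (nhds 0) :=
    tendsto_pow_atTop_nhds_zero_of_lt_one (by positivity) (by
      rw [div_lt_one (by positivity)]; linarith)
  have hp : ∀ m : ℕ, (Sd ^ m) (sx R s) = push (ext s) (affL (((sd : Module.End R _) ^ m)
      (ax R (ee k)))) := by
    intro m
    induction m with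
    | zero => simpa using (push_ext s).symm
    | succ m ih =>
      rw [pow_succ', pow_succ', Module.End.mul_apply, Module.End.mul_apply, ih,
        Sd_real (k := k) (convex_stdSimplex _ _) (ext_cont s)]
      exact fun a ha => ⟨(sd_pow_dsub (convex_stdSimplex _ _) h0 m ha).1,
        (sd_pow_dsub (convex_stdSimplex _ _) h0 m ha).2.1⟩
  filter_upwards [hq.eventually (gt_mem_nhds hδ)] with m hm
  rw [LinearMap.id_apply, hp]
  refine supp_mem (push (ext s) ∘ₗ affL) ?_ (sd_pow_dsub (convex_stdSimplex _ _) h0 m)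
  rintro ⟨k', w⟩ ⟨hk, hw, hd⟩
  obtain rfl : k' = k := hk
  show push (ext s) (affL (ax R w)) ∈ _
  rcases isEmpty_or_nonempty (Fin k') with he | ⟨⟨j⟩⟩
  · refine sub_small (Classical.arbitrary ι) (push_mem (S := ∅) (fun _ h => h.elim) ?_)
    exact affL_mem convex_empty (ax_mem fun i => he.elim i)
  · obtain ⟨i, hi⟩ := hl ⟨w j, hw j⟩ trivial
    refine sub_small i (push_mem (S := stdSimplex ℝ (Fin k') ∩ Metric.ball (w j) δ) (fun t ht => ?_)
      (affL_mem ((convex_stdSimplex _ _).inter (convex_ball _ _)) (ax_mem fun i => ⟨hw i, ?_⟩)))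
    · rw [ext_val s ⟨t, ht.1⟩]
      exact ⟨hs _, hi ht.2⟩
    · exact (hd i j).trans_lt (by simpa using hm)

end small

variable [Nonempty X]

/-- Splitting of a chain along two open sets, up to a boundary. -/
lemma split {S U V : Set X} (hU : IsOpen U) (hV : IsOpen V) (cov : S ⊆ U ∪ V) {k : ℕ}
    {u u₁ u₂ : Ch R X} (hu : u ∈ sub R S (k + 1)) (h₁ : u₁ ∈ sub R (S ∩ U) k)
    (h₂ : u₂ ∈ sub R (S ∩ V) k) (h : bd u = u₁ + u₂) :
    ∃ y₁ ∈ sub R (S ∩ U) (k + 1), ∃ y₂ ∈ sub R (S ∩ V) (k + 1), u - y₁ - y₂ ∈ Bd R S (k + 1) := by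
  obtain ⟨m, hm⟩ := (eventually_small (N := fun b : Bool => cond b U V)
    (fun b => by cases b <;> assumption) (fun x hx => by
      rcases cov hx with h | h
      exacts [mem_iUnion.2 ⟨true, h⟩, mem_iUnion.2 ⟨false, h⟩]) hu).exists
  obtain ⟨T, h1, h2⟩ := exists_htpy (R := R) (X := X) m
  have : (Sd ^ m) u ∈ sub R (S ∩ U) (k + 1) ⊔ sub R (S ∩ V) (k + 1) :=
    small_ind LinearMap.id (fun b c hc => by
      cases b
      exacts [Submodule.mem_sup_right hc, Submodule.mem_sup_left hc]) hm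
  obtain ⟨y₁, hy₁, y₂, hy₂, e⟩ := Submodule.mem_sup.1 this
  refine ⟨y₁ + T u₁, add_mem hy₁ (h2 _ _ _ h₁), y₂ + T u₂, add_mem hy₂ (h2 _ _ _ h₂),
    T u, h2 _ _ _ hu, ?_⟩
  have h3 := h1 u
  rw [h, map_add, ← e] at h3
  linear_combination (norm := abel) -h3

/-- Deformation of `S` into `S'`. -/
lemma deform {S S' : Set X} {H : X × ℝ → X} (hH : ContinuousOn H (S ×ˢ Icc (0 : ℝ) 1))
    (h1 : MapsTo H (S ×ˢ Icc (0 : ℝ) 1) S) (h2 : MapsTo H (S' ×ˢ Icc (0 : ℝ) 1) S')
    (h3 : ∀ x ∈ S, H (x, 0) = x) (h4 : ∀ x ∈ S, H (x, 1) ∈ S') {k : ℕ} {a : Ch R X}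
    (ha : a ∈ sub R S (k + 1)) (hb : bd a ∈ sub R S' k) :
    ∃ y ∈ sub R S' (k + 1), a - y ∈ Bd R S (k + 1) := by
  refine ⟨push (fun x => H (x, 1)) a - Pri H (bd a), sub_mem (push_mem h4 ha) (Pri_mem h2 hb),
    -Pri H a, neg_mem (Pri_mem h1 ha), ?_⟩
  have := bd_Pri hH ha
  rw [push_eq_self h3 ha] at this
  rw [map_neg]
  linear_combination (norm := abel) -this

omit [Nonempty X] in
lemma push_const (p : Y) {S : Set X} {k : ℕ} {c : Ch R X} (hc : c ∈ sub R S k) (h : bd c = 0) :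
    push (fun _ => p) c ∈ Bd R {p} k := by
  let κ : Ch R X →ₗ[R] Ch R Y :=
    linearCombination R fun a => sx R (ContinuousMap.const (Dl (a.1 + 1)) p)
  have κs : ∀ k (s : C(Dl k, X)), κ (sx R s) = sx R (ContinuousMap.const (Dl (k + 1)) p) := by
    intro k s; simp [κ, sx]
  refine ⟨κ c, sub_ind κ (fun s _ => by rw [κs]; exact sx_mem fun _ => rfl) hc, ?_⟩
  have : bd (κ c) + κ (bd c) = push (fun _ => p) c := by
    refine sub_eq (bd ∘ₗ κ + κ ∘ₗ bd) _ (fun s _ => ?_) hc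
    rw [push_sx_eq _ s (ContinuousMap.const _ p) fun _ => rfl]
    simp only [LinearMap.add_apply, LinearMap.comp_apply, κs]
    rw [bd_succ, Fin.sum_univ_succ]
    cases k with
    | zero => simp
    | succ k =>
      simp only [bd_succ, map_sum, map_smul, κs, ContinuousMap.const_comp, Fin.val_succ, pow_succ]
      simp
  rwa [h, map_zero, add_zero] at this

/-- A set that contracts to a point within itself has no reduced homology. -/
lemma acyclic {S : Set X} {H : X × ℝ → X} (hH : ContinuousOn H (S ×ˢ Icc (0 : ℝ) 1))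
    (h1 : MapsTo H (S ×ˢ Icc (0 : ℝ) 1) S) (h3 : ∀ x ∈ S, H (x, 0) = x) {p : X} (hp : p ∈ S)
    (h4 : ∀ x ∈ S, H (x, 1) = p) {k : ℕ} {c : Ch R X} (hc : c ∈ sub R S k) (h : bd c = 0) :
    c ∈ Bd R S k := by
  have := bd_Pri hH hc
  rw [push_eq_self h3 hc, h, map_zero, add_zero, push_congr h4 hc] at this
  have h5 := sub_mem (Bd_mono (singleton_subset_iff.2 hp) (push_const p hc h))
    (bd_mem_Bd (Pri_mem h1 hc))
  rwa [this, sub_sub_cancel] at h5

lemma acyclic_star {E : Type} [NormedAddCommGroup E] [NormedSpace ℝ E] {S : Set E} {p : E}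
    (hp : p ∈ S) (hS : StarConvex ℝ p S) {k : ℕ} {c : Ch R E} (hc : c ∈ sub R S k)
    (h : bd c = 0) : c ∈ Bd R S k :=
  acyclic (H := fun q => q.2 • p + (1 - q.2) • q.1) (by fun_prop)
    (fun q hq => hS hq.1 hq.2.1 (sub_nonneg.2 hq.2.2) (by ring)) (by simp) hp (by simp) hc h

end Pool.Agent.Lib.Helper83
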